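import Pool.Agent.W537.DB.Deg2

/-!
# Subspaces defined over a subfield
-/

set_option linter.unusedSectionVars false

namespace Pool.Agent.W537.DB

open Matrix Pool.Agent.H204R3.SP Pool.Agent.H204R3.CM

noncomputable section

variable {N : Type*} [Fintype N]

/-- The solutions of a system of linear equations with coefficients in `K` are spanned by the
solutions with coordinates in `K`. -/
theorem rational_span (K : IntermediateField ℚ ℂ) (S : Set (N → ℂ)) (hS : ∀ b ∈ S, ∀ i, b i ∈ K)
    {w : N → ℂ} (hw : ∀ b ∈ S, ∑ i, b i * w i = 0) :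
    w ∈ Submodule.span ℂ {u | (∀ i, u i ∈ K) ∧ ∀ b ∈ S, ∑ i, b i * u i = 0} := by
  classical
  let β := Module.Basis.ofVectorSpace K ℂ
  let T : Finset (Module.Basis.ofVectorSpaceIndex K ℂ) :=
    Finset.univ.biUnion fun i => (β.repr (w i)).support
  have hwi : ∀ i, w i = ∑ α ∈ T, ((β.repr (w i) α : K) : ℂ) * β α := by
    intro i
    have h1 := β.linearCombination_repr (w i)
    rw [Finsupp.linearCombination_apply] at h1
    conv_lhs => rw [← h1]
    rw [Finsupp.sum_of_support_subset (s := T)]
    · refine Finset.sum_congr rfl fun α _ => ?_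
      rw [Algebra.smul_def]
      rfl
    · exact Finset.subset_biUnion_of_mem (fun i => (β.repr (w i)).support) (Finset.mem_univ i)
    · intro α _
      exact zero_smul _ _
  have hw2 : w = ∑ α ∈ T, β α • (fun i => ((β.repr (w i) α : K) : ℂ)) := by
    funext i
    rw [Finset.sum_apply]
    conv_lhs => rw [hwi i]
    refine Finset.sum_congr rfl fun α _ => ?_
    rw [Pi.smul_apply, smul_eq_mul, mul_comm]
  rw [hw2]
  refine Submodule.sum_mem _ fun α _ => Submodule.smul_mem _ _ (Submodule.subset_span ?_)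
  refine ⟨fun i => (β.repr (w i) α).2, fun b hb => ?_⟩
  have h1 := congrArg (fun z => β.repr z α) (hw b hb)
  simp only [map_sum, map_zero, Finsupp.coe_zero, Pi.zero_apply, Finsupp.finsetSum_apply] at h1
  have h2 : ∀ i, β.repr (b i * w i) α = ⟨b i, hS b hb i⟩ * β.repr (w i) α := by
    intro i
    have h3 : b i * w i = (⟨b i, hS b hb i⟩ : K) • w i := by
      rw [Algebra.smul_def]
      rfl
    rw [h3, map_smul, Finsupp.smul_apply, smul_eq_mul]
  rw [Finset.sum_congr rfl (fun i _ => h2 i)] at h1
  have h4 : ((∑ i, (⟨b i, hS b hb i⟩ : K) * β.repr (w i) α : K) : ℂ) = ((0 : K) : ℂ) :=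
    congrArg (fun z : K => (z : ℂ)) h1
  rw [AddSubmonoidClass.coe_finsetSum, ZeroMemClass.coe_zero] at h4
  rw [← h4]
  rfl

/-- A vector with coordinates in `K` which is a complex linear combination of vectors of `S` with
coordinates in `K` is a linear combination with coefficients in `K`. -/
theorem descend_span (K : IntermediateField ℚ ℂ) (S : Set (N → ℂ)) (hS : ∀ b ∈ S, ∀ i, b i ∈ K)
    {w : N → ℂ} (hw : ∀ i, w i ∈ K) (h : w ∈ Submodule.span ℂ S) : w ∈ Submodule.span K S := by
  -- a `K`-linear retraction of `ℂ` to `K`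
  obtain ⟨ρ, hρ⟩ : ∃ ρ : ℂ →ₗ[K] K, ∀ x : K, ρ (x : ℂ) = x := by
    obtain ⟨ρ, hρ⟩ := (Algebra.linearMap K ℂ).exists_leftInverse_of_injective
      (LinearMap.ker_eq_bot.2 (algebraMap K ℂ).injective)
    exact ⟨ρ, fun x => LinearMap.congr_fun hρ x⟩
  let R : (N → ℂ) →ₗ[K] (N → ℂ) :=
    { toFun := fun w i => (ρ (w i) : ℂ)
      map_add' := by
        intro v w
        funext i
        simp
      map_smul' := by
        intro c v
        funext i
        rw [Pi.smul_apply, map_smul, RingHom.id_apply, Pi.smul_apply, Algebra.smul_def c (_ : ℂ)]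
        rfl }
  have h1 : ∀ v ∈ Submodule.span ℂ S, R v ∈ Submodule.span K S := by
    intro v hv
    obtain ⟨n, c, s, rfl⟩ := Submodule.mem_span_set'.1 hv
    rw [map_sum]
    refine Submodule.sum_mem _ fun j _ => ?_
    have h2 : R (c j • (s j : N → ℂ)) = (ρ (c j)) • (s j : N → ℂ) := by
      funext i
      change (ρ (c j * (s j : N → ℂ) i) : ℂ) = _
      have h3 : c j * (s j : N → ℂ) i = (⟨(s j : N → ℂ) i, hS _ (s j).2 i⟩ : K) • c j := by
        rw [Algebra.smul_def, mul_comm]
        rfl
      rw [h3, map_smul, smul_eq_mul, mul_comm, Pi.smul_apply,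
        Algebra.smul_def (ρ (c j)) ((s j : N → ℂ) i)]
      rfl
    rw [h2]
    exact Submodule.smul_mem _ _ (Submodule.subset_span (s j).2)
  have h2 : R w = w := by
    funext i
    change (ρ (w i) : ℂ) = w i
    have := hρ ⟨w i, hw i⟩
    rw [this]
  rw [← h2]
  exact h1 w h

end

end Pool.Agent.W537.DB
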