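import Mathlib
import Pool.Agent.H23R2.Der

/-!
# Subspaces stable under the derivations of the complex numbers
-/

set_option linter.unusedSectionVars false

namespace Pool.Agent.W537.DB

open Polynomial

/-- A derivation kills the rational numbers. -/
theorem der_rat (D : Derivation ℤ ℂ ℂ) (q : ℚ) : D (q : ℂ) = 0 := by
  have h1 : D ((q.den : ℂ) * (q : ℂ)) = 0 := by
    have h2 : (q.den : ℂ) * (q : ℂ) = ((q.num : ℤ) : ℂ) := by
      rw [mul_comm]
      exact_mod_cast q.mul_den_eq_num
    rw [h2]
    exact D.map_intCast q.num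
  rw [Derivation.leibniz, D.map_natCast, smul_zero, add_zero, smul_eq_mul] at h1
  exact (mul_eq_zero.1 h1).resolve_left (Nat.cast_ne_zero.2 q.den_nz)

theorem der_aeval (D : Derivation ℤ ℂ ℂ) (x : ℂ) (p : ℚ[X]) :
    D (aeval x p) = aeval x (derivative p) * D x := by
  induction p using Polynomial.induction_on' with
  | add p q hp hq => rw [map_add, map_add, hp, hq, derivative_add, map_add, add_mul]
  | monomial n c =>
    rw [derivative_monomial, aeval_monomial, aeval_monomial, Derivation.leibniz,
      Derivation.leibniz_pow]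
    have h1 : D ((algebraMap ℚ ℂ) c) = 0 := der_rat D c
    rw [h1, smul_zero, add_zero, map_mul]
    simp only [smul_eq_mul, nsmul_eq_mul, map_natCast]
    ring

/-- A derivation kills the algebraic numbers. -/
theorem der_alg (D : Derivation ℤ ℂ ℂ) {x : ℂ} (hx : IsAlgebraic ℚ x) : D x = 0 := by
  have hint : IsIntegral ℚ x := hx.isIntegral
  have h1 := der_aeval D x (minpoly ℚ x)
  rw [minpoly.aeval, map_zero] at h1
  have h2 : aeval x (derivative (minpoly ℚ x)) ≠ 0 :=
    (minpoly.irreducible hint).separable.aeval_derivative_ne_zero (minpoly.aeval ℚ x)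
  exact (mul_eq_zero.1 h1.symm).resolve_left h2

/-- A complex number killed by all derivations is algebraic. -/
theorem alg_of_der {x : ℂ} (h : ∀ D : Derivation ℤ ℂ ℂ, D x = 0) : IsAlgebraic ℚ x := by
  by_contra hx
  obtain ⟨D, hD⟩ := Pool.Agent.H23R2.exists_derivation x hx
  exact hD (h D)

variable {N : Type*} [Fintype N]

/-- A subspace of `ℂ ^ N` stable under the derivations. -/
def DStable (M : Submodule ℂ (N → ℂ)) : Prop :=
  ∀ (D : Derivation ℤ ℂ ℂ), ∀ w ∈ M, (fun i => D (w i)) ∈ M

/-- A subspace stable under derivations is spanned by vectors with algebraic coordinates. -/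
theorem dstable_span (n : ℕ) : ∀ M : Submodule ℂ (N → ℂ), Module.finrank ℂ M = n → DStable M →
    M ≤ Submodule.span ℂ {w | w ∈ M ∧ ∀ i, IsAlgebraic ℚ (w i)} := by
  classical
  induction n with
  | zero =>
    intro M hM _
    rw [Submodule.finrank_eq_zero.1 hM]
    exact bot_le
  | succ n ih =>
    intro M hM hD
    -- a nonzero vector with minimal support
    have hex : ∃ k, ∃ w ∈ M, w ≠ 0 ∧ (Finset.univ.filter fun i => w i ≠ 0).card = k := by
      have : M ≠ ⊥ := by
        rintro rfl
        rw [finrank_bot] at hM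
        omega
      obtain ⟨w, hw, hw0⟩ := Submodule.exists_mem_ne_zero_of_ne_bot this
      exact ⟨_, w, hw, hw0, rfl⟩
    obtain ⟨w, hw, hw0, hcard⟩ := Nat.find_spec hex
    have hmin : ∀ v ∈ M, v ≠ 0 → (Finset.univ.filter fun i => w i ≠ 0).card ≤
        (Finset.univ.filter fun i => v i ≠ 0).card := by
      intro v hv hv0
      rw [hcard]
      exact Nat.find_min' hex ⟨v, hv, hv0, rfl⟩
    obtain ⟨i0, hi0⟩ := Function.ne_iff.1 hw0
    rw [Pi.zero_apply] at hi0
    let u : N → ℂ := (w i0)⁻¹ • w
    have hu : u ∈ M := M.smul_mem _ hw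
    have hui : u i0 = 1 := inv_mul_cancel₀ hi0
    have husupp : ∀ i, u i ≠ 0 ↔ w i ≠ 0 := by
      intro i
      simp only [u, Pi.smul_apply, smul_eq_mul, ne_eq, mul_eq_zero, inv_eq_zero, hi0, false_or]
    have hualg : ∀ i, IsAlgebraic ℚ (u i) := by
      intro i
      apply alg_of_der
      intro D
      have h1 := hD D u hu
      have h2 : (fun i => D (u i)) = 0 := by
        by_contra hne
        have h3 := hmin _ h1 hne
        have h4 : (Finset.univ.filter fun i => D (u i) ≠ 0) ⊂ Finset.univ.filter fun i => w i ≠ 0 := by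
          rw [Finset.ssubset_iff_of_subset]
          · refine ⟨i0, by simpa using hi0, ?_⟩
            rw [Finset.mem_filter]
            rintro ⟨_, h⟩
            apply h
            rw [hui, Derivation.map_one_eq_zero]
          · intro i hi
            rw [Finset.mem_filter] at hi ⊢
            refine ⟨Finset.mem_univ _, fun h0 => hi.2 ?_⟩
            have : u i = 0 := by
              by_contra h5
              exact ((husupp i).1 h5) h0
            rw [this, map_zero]
        exact absurd h3 (not_le.2 (Finset.card_lt_card h4))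
      exact congrFun h2 i
    -- the complement
    let M1 : Submodule ℂ (N → ℂ) := M ⊓ LinearMap.ker (LinearMap.proj (R := ℂ) (φ := fun _ => ℂ) i0)
    have hM1 : ∀ v, v ∈ M1 ↔ v ∈ M ∧ v i0 = 0 := fun v => by
      rw [Submodule.mem_inf, LinearMap.mem_ker]
      rfl
    have hD1 : DStable M1 := by
      intro D v hv
      rw [hM1] at hv ⊢
      exact ⟨hD D v hv.1, by rw [hv.2, map_zero]⟩
    have hlt : Module.finrank ℂ M1 = n := by
      have h1 : M = (ℂ ∙ u) ⊔ M1 := by
        apply le_antisymm
        · intro v hv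
          rw [Submodule.mem_sup]
          refine ⟨v i0 • u, Submodule.smul_mem _ _ (Submodule.mem_span_singleton_self u),
            v - v i0 • u, ?_, by abel⟩
          rw [hM1]
          refine ⟨M.sub_mem hv (M.smul_mem _ hu), ?_⟩
          rw [Pi.sub_apply, Pi.smul_apply, hui, smul_eq_mul, mul_one, sub_self]
        · rw [sup_le_iff]
          refine ⟨?_, inf_le_left⟩
          rw [Submodule.span_singleton_le_iff_mem]
          exact hu
      have h2 : Disjoint (ℂ ∙ u) M1 := by
        rw [Submodule.disjoint_def]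
        intro v hv hv1
        obtain ⟨c, rfl⟩ := Submodule.mem_span_singleton.1 hv
        rw [hM1, Pi.smul_apply, hui, smul_eq_mul, mul_one] at hv1
        rw [hv1.2, zero_smul]
      have h3 := Submodule.finrank_sup_add_finrank_inf_eq (ℂ ∙ u) M1
      rw [← h1, hM, disjoint_iff.1 h2, finrank_bot, finrank_span_singleton] at h3
      · omega
      · intro h0
        rw [h0, Pi.zero_apply] at hui
        exact zero_ne_one hui
    have h4 := ih M1 hlt hD1
    intro v hv
    have h5 : v - v i0 • u ∈ M1 := by
      rw [hM1]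
      refine ⟨M.sub_mem hv (M.smul_mem _ hu), ?_⟩
      rw [Pi.sub_apply, Pi.smul_apply, hui, smul_eq_mul, mul_one, sub_self]
    have h6 : v - v i0 • u ∈ Submodule.span ℂ {w | w ∈ M ∧ ∀ i, IsAlgebraic ℚ (w i)} := by
      refine Submodule.span_mono ?_ (h4 h5)
      rintro w ⟨hw1, hw2⟩
      exact ⟨((hM1 w).1 hw1).1, hw2⟩
    have h7 : v = v i0 • u + (v - v i0 • u) := by abel
    rw [h7]
    exact Submodule.add_mem _ (Submodule.smul_mem _ _ (Submodule.subset_span ⟨hu, hualg⟩)) h6

/-- A vector outside a subspace stable under derivations is separated from it by a linear form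
with algebraic coefficients. -/
theorem exists_alg_form {M : Submodule ℂ (N → ℂ)} (hM : DStable M) {w : N → ℂ} (hw : w ∉ M) :
    ∃ b : N → ℂ, (∀ i, IsAlgebraic ℚ (b i)) ∧ (∀ v ∈ M, ∑ i, b i * v i = 0) ∧
      ∑ i, b i * w i ≠ 0 := by
  classical
  let P : Submodule ℂ (N → ℂ) :=
    { carrier := {b | ∀ v ∈ M, ∑ i, b i * v i = 0}
      zero_mem' := fun v _ => Finset.sum_eq_zero fun i _ => zero_mul _
      add_mem' := by
        intro a b ha hb v hv
        simp only [Pi.add_apply, add_mul, Finset.sum_add_distrib, ha v hv, hb v hv, add_zero]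
      smul_mem' := by
        intro c b hb v hv
        simp only [Pi.smul_apply, smul_eq_mul, mul_assoc, ← Finset.mul_sum, hb v hv, mul_zero] }
  have hP : DStable P := by
    intro D b hb v hv
    have h1 := congrArg D (hb v hv)
    rw [map_sum, map_zero] at h1
    simp only [Derivation.leibniz, smul_eq_mul, Finset.sum_add_distrib] at h1
    have h2 := hb _ (hM D v hv)
    rw [h2, zero_add] at h1
    rw [← h1]
    exact Finset.sum_congr rfl fun i _ => mul_comm _ _
  obtain ⟨f, hf, hfM⟩ := Submodule.exists_le_ker_of_notMem hw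
  have hfr : ∀ v, f v = ∑ i, f (Pi.single i 1) * v i := by
    intro v
    conv_lhs => rw [pi_eq_sum_univ' v, map_sum]
    refine Finset.sum_congr rfl fun i _ => ?_
    rw [map_smul, smul_eq_mul, mul_comm]
  have hfP : (fun i => f (Pi.single i 1)) ∈ P := by
    intro v hv
    rw [← hfr v]
    exact hfM hv
  by_contra hcon
  push Not at hcon
  have h3 := dstable_span _ P rfl hP hfP
  have h4 : ∀ b ∈ Submodule.span ℂ {b | b ∈ P ∧ ∀ i, IsAlgebraic ℚ (b i)},
      ∑ i, b i * w i = 0 := by
    intro b hb
    induction hb using Submodule.span_induction with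
    | mem b hb => exact hcon b hb.2 hb.1
    | zero => exact Finset.sum_eq_zero fun i _ => zero_mul _
    | add a b _ _ ha hb =>
      simp only [Pi.add_apply, add_mul, Finset.sum_add_distrib, ha, hb, add_zero]
    | smul c a _ ha =>
      simp only [Pi.smul_apply, smul_eq_mul, mul_assoc, ← Finset.mul_sum, ha, mul_zero]
  exact hf ((hfr w).trans (h4 _ h3))

end Pool.Agent.W537.DB
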