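import Mathlib

/-!
# De Rham-Betti classes in the tensor powers of the first cohomology of an abelian variety

An abelian variety `A` over the field of algebraic numbers is given by

* the complex structure `J` on `H_1(A, ℝ) = ℝ ^ ι`, where a basis of `H_1(A, ℚ)`, indexed by `ι`,
  is chosen;
* the matrix `E` of a polarization on `H_1(A, ℚ)`;
* the period matrix `C`, whose rows are the periods of the elements of a basis of the de Rham
  cohomology `H^1_dR(A / ℚ̄)` (indexed by `ι` as well) on the basis of `H_1(A, ℚ)`.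

A complex class in `H^1(A) ^ {⊗ 2 m}` is a complex multilinear form `f` in `2 m` variables on
`H_1(A, ℂ) = ℂ ^ ι`.
-/

namespace Pool.Agent.W537.DB

noncomputable section

/-- An abelian variety over the field of algebraic numbers, up to isogeny: the complex structure `J`
on `H_1(A, ℝ) = ℝ ^ ι`, a polarization `E` and a period matrix `C`. -/
structure AbVar (ι : Type) [Fintype ι] [DecidableEq ι] where
  /-- the complex structure -/
  J : Matrix ι ι ℝ
  J_sq : J * J = -1
  /-- the polarization -/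
  E : Matrix ι ι ℚ
  E_alt : E.transpose = -E
  E_J : J.transpose * E.map (fun q : ℚ => (q : ℝ)) * J = E.map (fun q : ℚ => (q : ℝ))
  E_pos : ∀ v : ι → ℝ, v ≠ 0 →
    0 < dotProduct v (Matrix.mulVec (E.map (fun q : ℚ => (q : ℝ)) * J) v)
  /-- the period matrix: `C i j` is the period of the `i`-th element of a basis of
  `H^1_dR(A / ℚ̄)` along the `j`-th element of the basis of `H_1(A, ℚ)` -/
  C : Matrix ι ι ℂ
  C_unit : IsUnit C

variable {ι : Type} [Fintype ι] [DecidableEq ι] (A : AbVar ι)

/-- The rational matrix `P` is an endomorphism of `A` (tensored with `ℚ`). -/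
def AbVar.IsEnd (P : Matrix ι ι ℚ) : Prop :=
  P.map (fun q : ℚ => (q : ℝ)) * A.J = A.J * P.map (fun q : ℚ => (q : ℝ))

/-- The rational bilinear form with matrix `B` on `H_1(A, ℚ)` is a Hodge class in
`(H^1(A) ⊗ H^1(A)) (1)`. -/
def AbVar.IsHodgeBilinear (B : Matrix ι ι ℚ) : Prop :=
  A.J.transpose * B.map (fun q : ℚ => (q : ℝ)) * A.J = B.map (fun q : ℚ => (q : ℝ))

/-- The multiplication by the complex number `exp (i θ)` on `H_1(A, ℝ)`, extended to
`H_1(A, ℂ)`. -/
def AbVar.rot (θ : ℝ) : Matrix ι ι ℂ :=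
  (Real.cos θ : ℂ) • (1 : Matrix ι ι ℂ) + (Real.sin θ : ℂ) • A.J.map (fun x : ℝ => (x : ℂ))

/-- Complex multilinear forms on `H_1(A, ℂ)` in the variables indexed by `κ`. -/
abbrev Form (ι κ : Type) : Type := MultilinearMap ℂ (fun _ : κ => (ι → ℂ)) ℂ

/-- The Betti coefficients of the form `f` (its values on the basis of `H_1(A, ℚ)`) lie in `K`. -/
def HasCoeff {κ : Type} (K : IntermediateField ℚ ℂ) (f : Form ι κ) : Prop :=
  ∀ I : κ → ι, f (fun l => Pi.single (I l) 1) ∈ K

/-- The de Rham coefficients of the form `f` (its values on the basis of `H_1(A, ℂ)` which is dual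
to the basis of `H^1_dR(A / ℚ̄)`), multiplied by `(2 π i) ^ m`, are algebraic numbers. -/
def AbVar.IsDeRham (m : ℕ) (f : Form ι (Fin m × Fin 2)) : Prop :=
  ∀ I : Fin m × Fin 2 → ι, IsAlgebraic ℚ ((2 * Real.pi * Complex.I) ^ m *
    f (fun l => Matrix.mulVec A.C⁻¹ (Pi.single (I l) 1)))

/-- A de Rham-Betti class with coefficients in `K`, in `(H^1(A) ^ {⊗ 2 m}) (m)`. -/
def AbVar.IsDRB (K : IntermediateField ℚ ℂ) (m : ℕ) (f : Form ι (Fin m × Fin 2)) : Prop :=
  HasCoeff K f ∧ A.IsDeRham m f

/-- A Hodge class in `(H^1(A) ^ {⊗ 2 m}) (m)`: a form with rational coefficients which is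
invariant under the multiplication by the complex numbers of absolute value one. -/
def AbVar.IsHodge {κ : Type} (f : Form ι κ) : Prop :=
  HasCoeff ⊥ f ∧ ∀ (θ : ℝ) (v : κ → ι → ℂ), f (fun l => Matrix.mulVec (A.rot θ) (v l)) = f v

/-- A product of Hodge classes of degree two (classes of divisors), the `2 m` variables being
distributed in some way. -/
def AbVar.IsProduct {m : ℕ} (f : Form ι (Fin m × Fin 2)) : Prop :=
  ∃ (σ : Equiv.Perm (Fin m × Fin 2)) (B : Fin m → Matrix ι ι ℚ), (∀ l, A.IsHodgeBilinear (B l)) ∧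
    ∀ v, f v = ∏ l, dotProduct (v (σ (l, 0)))
      (Matrix.mulVec ((B l).map (fun q : ℚ => (q : ℂ))) (v (σ (l, 1))))

/-- The Hodge classes of degree two, that is the classes of divisors on `A × A`, are de Rham
classes. -/
def AbVar.DivisorsDeRham : Prop :=
  ∀ B : Matrix ι ι ℚ, A.IsHodgeBilinear B → ∀ i j, IsAlgebraic ℚ ((2 * Real.pi * Complex.I) *
    ((A.C⁻¹).transpose * B.map (fun q : ℚ => (q : ℂ)) * A.C⁻¹) i j)

/-- The theorem of Wüstholz, for the powers of `A`: if the de Rham class `ω = (ω k)` on the power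
`A ^ N`, `ω k = ∑ i, a k i • (the i-th basis element)` with algebraic coefficients, has period zero
along the element `v = (v k)` of `H_1(A ^ N, ℚ)`, then there is an endomorphism `P` of `A ^ N`
(the projection to an abelian subvariety) with `P v = v` such that the restriction of `ω` to the
image of `P` is zero. -/
def AbVar.Wuestholz : Prop :=
  ∀ (N : Type) [Fintype N] (v : N → ι → ℚ) (a : N → ι → ℂ), (∀ k i, IsAlgebraic ℚ (a k i)) →
    ∑ k, dotProduct (a k) (Matrix.mulVec A.C (fun j => ((v k j : ℚ) : ℂ))) = 0 →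
    ∃ P : N → N → Matrix ι ι ℚ, (∀ k l, A.IsEnd (P k l)) ∧
      (∀ k, ∑ l, Matrix.mulVec (P k l) (v l) = v k) ∧
      ∀ l j, ∑ k, dotProduct (a k)
        (Matrix.mulVec (A.C * (P k l).map (fun q : ℚ => (q : ℂ))) (Pi.single j 1)) = 0

end

end Pool.Agent.W537.DB
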