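import Pool.Agent.W537.DB.Der
import Pool.Agent.W537.DB.Defs
import Pool.Agent.H204R3.SP.Lie

/-!
# The logarithmic derivative of the period matrix kills the de Rham-Betti classes
-/

set_option linter.unusedSectionVars false

namespace Pool.Agent.W537.DB

open Pool.Agent.H204R3.SP

noncomputable section

variable {ι : Type} [Fintype ι] [DecidableEq ι]

section form

variable {κ : Type} [Fintype κ] [DecidableEq κ]

theorem form_expand (f : Form ι κ) (v : κ → ι → ℂ) :
    f v = ∑ I : κ → ι, (∏ k, v k (I k)) * f (fun l => Pi.single (I l) 1) := by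
  have h1 : v = fun k => ∑ i, v k i • (Pi.single i 1 : ι → ℂ) := by
    funext k
    exact pi_eq_sum_univ' (v k)
  conv_lhs => rw [h1]
  rw [MultilinearMap.map_sum]
  refine Finset.sum_congr rfl fun I _ => ?_
  rw [MultilinearMap.map_smul_univ, smul_eq_mul]

theorem der_prod (D : Derivation ℤ ℂ ℂ) (a : κ → ℂ) :
    D (∏ k, a k) = ∑ k, ∏ l, Function.update a k (D (a k)) l := by
  have key : ∀ s : Finset κ, D (∏ k ∈ s, a k) =
      ∑ k ∈ s, ∏ l ∈ s, Function.update a k (D (a k)) l := by
    intro s
    induction s using Finset.induction_on with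
    | empty => simp
    | insert i s hi ih =>
      rw [Finset.prod_insert hi, Derivation.leibniz, ih, Finset.sum_insert hi, add_comm,
        Finset.prod_insert hi, Function.update_self]
      congr 1
      · rw [smul_eq_mul, mul_comm]
        congr 1
        refine Finset.prod_congr rfl fun l hl => ?_
        rw [Function.update_of_ne (fun h : l = i => hi (h ▸ hl))]
      · rw [smul_eq_mul, Finset.mul_sum]
        refine Finset.sum_congr rfl fun k hk => ?_
        rw [Finset.prod_insert hi, Function.update_of_ne (fun h : i = k => hi (h ▸ hk))]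
  exact key Finset.univ

/-- The derivative of a value of a form with algebraic coefficients. -/
theorem der_form (D : Derivation ℤ ℂ ℂ) (f : Form ι κ)
    (hf : ∀ I : κ → ι, IsAlgebraic ℚ (f (fun l => Pi.single (I l) 1))) (v : κ → ι → ℂ) :
    D (f v) = ∑ k, f (Function.update v k (fun i => D (v k i))) := by
  rw [form_expand f v, map_sum]
  have h1 : ∀ I : κ → ι, D ((∏ k, v k (I k)) * f (fun l => Pi.single (I l) 1)) =
      ∑ k, (∏ l, Function.update v k (fun i => D (v k i)) l (I l)) *
        f (fun l => Pi.single (I l) 1) := by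
    intro I
    rw [Derivation.leibniz, der_alg D (hf I), smul_zero, zero_add, der_prod, smul_eq_mul,
      Finset.mul_sum]
    refine Finset.sum_congr rfl fun k _ => ?_
    rw [mul_comm]
    congr 1
    refine Finset.prod_congr rfl fun l _ => ?_
    by_cases h : l = k
    · subst h
      rw [Function.update_self, Function.update_self]
    · rw [Function.update_of_ne h, Function.update_of_ne h]
  rw [Finset.sum_congr rfl (fun I _ => h1 I), Finset.sum_comm]
  refine Finset.sum_congr rfl fun k _ => ?_
  rw [form_expand f]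

/-- The form `v ↦ ∑ k, f (v_1, ..., X v_k, ...)`. -/
def killM (X : Module.End ℂ (ι → ℂ)) (f : Form ι κ) : Form ι κ :=
  ∑ k, f.compLinearMap (Function.update (fun _ => LinearMap.id) k X)

theorem killM_apply (X : Module.End ℂ (ι → ℂ)) (f : Form ι κ) (v : κ → ι → ℂ) :
    killM X f v = ∑ k, f (Function.update v k (X (v k))) := by
  unfold killM
  rw [_root_.sum_apply]
  refine Finset.sum_congr rfl fun k _ => ?_
  rw [MultilinearMap.compLinearMap_apply]
  congr 1
  funext l
  by_cases h : l = k
  · subst h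
    rw [Function.update_self, Function.update_self]
  · rw [Function.update_of_ne h, Function.update_of_ne h]
    rfl

theorem kills_iff (X : Module.End ℂ (ι → ℂ)) (f : Form ι κ) : Kills X f ↔ killM X f = 0 := by
  constructor
  · intro h
    refine MultilinearMap.ext fun v => ?_
    rw [killM_apply]
    exact h v
  · intro h v
    rw [← killM_apply, h]
    rfl

theorem killM_add (X Y : Module.End ℂ (ι → ℂ)) (f : Form ι κ) :
    killM (X + Y) f = killM X f + killM Y f := by
  refine MultilinearMap.ext fun v => ?_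
  rw [_root_.add_apply, killM_apply, killM_apply, killM_apply, ← Finset.sum_add_distrib]
  refine Finset.sum_congr rfl fun k _ => ?_
  rw [LinearMap.add_apply, MultilinearMap.map_update_add]

theorem killM_smul (c : ℂ) (X : Module.End ℂ (ι → ℂ)) (f : Form ι κ) :
    killM (c • X) f = c • killM X f := by
  refine MultilinearMap.ext fun v => ?_
  rw [_root_.smul_apply, killM_apply, killM_apply, Finset.smul_sum]
  refine Finset.sum_congr rfl fun k _ => ?_
  rw [LinearMap.smul_apply, MultilinearMap.map_update_smul]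

theorem killM_one (f : Form ι κ) : killM 1 f = (Fintype.card κ : ℂ) • f := by
  refine MultilinearMap.ext fun v => ?_
  rw [killM_apply, _root_.smul_apply]
  simp

theorem killM_form_add (X : Module.End ℂ (ι → ℂ)) (f g : Form ι κ) :
    killM X (f + g) = killM X f + killM X g := by
  refine MultilinearMap.ext fun v => ?_
  rw [_root_.add_apply, killM_apply, killM_apply, killM_apply, ← Finset.sum_add_distrib]
  rfl

theorem killM_form_smul (X : Module.End ℂ (ι → ℂ)) (c : ℂ) (f : Form ι κ) :
    killM X (c • f) = c • killM X f := by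
  refine MultilinearMap.ext fun v => ?_
  rw [_root_.smul_apply, killM_apply, killM_apply, Finset.smul_sum]
  rfl

/-- A form is zero if it is zero on the columns of an invertible matrix. -/
theorem form_zero {M : Matrix ι ι ℂ} (hM : IsUnit M) (f : Form ι κ)
    (h : ∀ I : κ → ι, f (fun l => Matrix.mulVec M (Pi.single (I l) 1)) = 0) : f = 0 := by
  let b : Module.Basis ι ℂ (ι → ℂ) :=
    (Pi.basisFun ℂ ι).map (Matrix.toLinearEquiv' M hM.invertible)
  refine Module.Basis.ext_multilinear (fun _ => b) fun I => ?_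
  rw [_root_.zero_apply, ← h I]
  congr 1
  funext l
  change (Matrix.toLinearEquiv' M hM.invertible) (Pi.basisFun ℂ ι (I l)) = _
  rw [Pi.basisFun_apply]
  rfl

end form

variable (A : AbVar ι)

/-- The logarithmic derivative of the period matrix. -/
def AbVar.X (D : Derivation ℤ ℂ ℂ) : Matrix ι ι ℂ := A.C⁻¹ * A.C.map D

/-- The logarithmic derivative of `2 π i`. -/
def lam (D : Derivation ℤ ℂ ℂ) : ℂ := D (2 * Real.pi * Complex.I) / (2 * Real.pi * Complex.I)

/-- The corrected logarithmic derivative. -/
def AbVar.Y (D : Derivation ℤ ℂ ℂ) : Matrix ι ι ℂ := A.X D - (lam D / 2) • 1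

theorem two_pi_I_ne : (2 * Real.pi * Complex.I : ℂ) ≠ 0 := Complex.two_pi_I_ne_zero

theorem der_mul (D : Derivation ℤ ℂ ℂ) (M N : Matrix ι ι ℂ) :
    (M * N).map D = M.map D * N + M * N.map D := by
  ext i j
  rw [Matrix.map_apply, Matrix.mul_apply, map_sum, Matrix.add_apply, Matrix.mul_apply,
    Matrix.mul_apply, ← Finset.sum_add_distrib]
  refine Finset.sum_congr rfl fun k _ => ?_
  rw [Derivation.leibniz, smul_eq_mul, smul_eq_mul, Matrix.map_apply, Matrix.map_apply]
  ring

theorem AbVar.det_unit : IsUnit A.C.det := (Matrix.isUnit_iff_isUnit_det _).1 A.C_unit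

theorem AbVar.inv_mul : A.C⁻¹ * A.C = 1 := Matrix.nonsing_inv_mul _ A.det_unit

theorem AbVar.mul_inv : A.C * A.C⁻¹ = 1 := Matrix.mul_nonsing_inv _ A.det_unit

theorem AbVar.inv_unit : IsUnit A.C⁻¹ :=
  ⟨⟨A.C⁻¹, A.C, A.inv_mul, A.mul_inv⟩, rfl⟩

theorem AbVar.der_C (D : Derivation ℤ ℂ ℂ) : A.C.map D = A.C * A.X D := by
  unfold AbVar.X
  rw [← Matrix.mul_assoc, A.mul_inv, Matrix.one_mul]

theorem der_one (D : Derivation ℤ ℂ ℂ) : (1 : Matrix ι ι ℂ).map D = 0 := by
  ext i j
  rw [Matrix.map_apply, Matrix.one_apply]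
  split_ifs
  · rw [Derivation.map_one_eq_zero]
    rfl
  · rw [map_zero]
    rfl

theorem AbVar.der_inv (D : Derivation ℤ ℂ ℂ) : A.C⁻¹.map D = -(A.X D * A.C⁻¹) := by
  have h1 := der_mul D A.C A.C⁻¹
  rw [A.mul_inv, der_one, A.der_C] at h1
  have h2 : A.C * A.C⁻¹.map D = -(A.C * A.X D * A.C⁻¹) := by
    rw [eq_neg_iff_add_eq_zero, add_comm]
    exact h1.symm
  have h3 := congrArg (fun M => A.C⁻¹ * M) h2
  simp only [← Matrix.mul_assoc, Matrix.mul_neg, A.inv_mul, Matrix.one_mul] at h3
  exact h3

/-- The derivative of the de Rham coefficients. -/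
theorem AbVar.der_coeff (D : Derivation ℤ ℂ ℂ) (m : ℕ) (f : Form ι (Fin m × Fin 2))
    (hf : ∀ I : Fin m × Fin 2 → ι, IsAlgebraic ℚ (f (fun l => Pi.single (I l) 1)))
    (I : Fin m × Fin 2 → ι) :
    D ((2 * Real.pi * Complex.I) ^ m * f (fun l => Matrix.mulVec A.C⁻¹ (Pi.single (I l) 1))) =
      -((2 * Real.pi * Complex.I) ^ m * killM (Matrix.toLin' (A.Y D)) f
        (fun l => Matrix.mulVec A.C⁻¹ (Pi.single (I l) 1))) := by
  set w : Fin m × Fin 2 → ι → ℂ := fun l => Matrix.mulVec A.C⁻¹ (Pi.single (I l) 1) with hw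
  have h1 : ∀ l, (fun i => D (w l i)) = -(Matrix.toLin' (A.X D) (w l)) := by
    intro l
    funext i
    have h2 : w l i = A.C⁻¹ i (I l) := by
      simp [hw]
    have h3 := congrFun (congrFun (A.der_inv D) i) (I l)
    rw [Matrix.map_apply] at h3
    rw [h2, h3, Pi.neg_apply, Matrix.neg_apply, Matrix.toLin'_apply, hw]
    simp only [Matrix.mulVec_single_one]
    rfl
  have h2 : D (f w) = -killM (Matrix.toLin' (A.X D)) f w := by
    rw [der_form D f hf w, killM_apply, ← Finset.sum_neg_distrib]
    refine Finset.sum_congr rfl fun k _ => ?_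
    rw [h1 k]
    have h4 := f.map_update_smul w k (-1) (Matrix.toLin' (A.X D) (w k))
    rw [neg_one_smul, neg_one_smul] at h4
    exact h4
  have h3 : D ((2 * Real.pi * Complex.I) ^ m) =
      (m * lam D) * (2 * Real.pi * Complex.I) ^ m := by
    rw [Derivation.leibniz_pow]
    unfold lam
    have h5 := two_pi_I_ne
    rcases m with _ | m
    · simp
    · rw [Nat.add_sub_cancel, smul_eq_mul, nsmul_eq_mul, pow_succ]
      field_simp
  rw [Derivation.leibniz, h2, h3, smul_eq_mul, smul_eq_mul]
  unfold AbVar.Y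
  have h6 : Matrix.toLin' (A.X D - (lam D / 2) • (1 : Matrix ι ι ℂ)) =
      Matrix.toLin' (A.X D) + (-(lam D / 2)) • (1 : Module.End ℂ (ι → ℂ)) := by
    rw [map_sub, map_smul, Matrix.toLin'_one, sub_eq_add_neg]
    congr 1
    exact (neg_smul (lam D / 2) (1 : Module.End ℂ (ι → ℂ))).symm
  rw [h6, killM_add, killM_smul, killM_one, _root_.add_apply, _root_.smul_apply,
    _root_.smul_apply]
  simp only [Fintype.card_prod, Fintype.card_fin, smul_eq_mul]
  push_cast
  ring

/-- A form with algebraic coefficients is a de Rham form if and only if it is killed by all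
corrected logarithmic derivatives of the period matrix. -/
theorem AbVar.isDeRham_iff (m : ℕ) (f : Form ι (Fin m × Fin 2))
    (hf : ∀ I : Fin m × Fin 2 → ι, IsAlgebraic ℚ (f (fun l => Pi.single (I l) 1))) :
    A.IsDeRham m f ↔ ∀ D : Derivation ℤ ℂ ℂ, Kills (Matrix.toLin' (A.Y D)) f := by
  have h0 : (2 * Real.pi * Complex.I : ℂ) ^ m ≠ 0 := pow_ne_zero _ two_pi_I_ne
  constructor
  · intro h D
    rw [kills_iff]
    refine form_zero A.inv_unit _ fun I => ?_
    have h1 := A.der_coeff D m f hf I
    rw [der_alg D (h I)] at h1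
    exact (mul_eq_zero.1 (neg_eq_zero.1 h1.symm)).resolve_left h0
  · intro h I
    apply alg_of_der
    intro D
    rw [A.der_coeff D m f hf I, (kills_iff _ _).1 (h D), _root_.zero_apply, mul_zero,
      neg_zero]

end

end Pool.Agent.W537.DB
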