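import Pool.Agent.W537.DB.HodgeF

/-!
# The Casimir form
-/

set_option linter.unusedSectionVars false

namespace Pool.Agent.W537.DB

open Matrix Pool.Agent.H204R3.SP Pool.Agent.H204R3.CM

noncomputable section

variable {ι : Type} [Fintype ι] [DecidableEq ι]

/-! ### Annihilators of families of forms -/

/-- The matrices that kill all forms of a family. -/
def AnnM (Φ : ∀ m : ℕ, Form ι (Fin m × Fin 2) → Prop) : Submodule ℂ (Matrix ι ι ℂ) where
  carrier := {x | ∀ m f, Φ m f → Kills (Matrix.toLin' x) f}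
  zero_mem' := by
    intro m f _
    rw [kills_iff, map_zero]
    have := killM_smul (κ := Fin m × Fin 2) 0 0 f
    rwa [zero_smul, zero_smul] at this
  add_mem' := by
    intro x y hx hy m f hf
    have h1 := hx m f hf
    have h2 := hy m f hf
    rw [kills_iff] at h1 h2 ⊢
    rw [map_add, killM_add, h1, h2, add_zero]
  smul_mem' := by
    intro c x hx m f hf
    have h1 := hx m f hf
    rw [kills_iff] at h1 ⊢
    rw [map_smul, killM_smul, h1, smul_zero]

variable {κ : Type} [Fintype κ] [DecidableEq κ]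

/-- The equation on the entries of a matrix expressing that it kills a form. -/
def killCo (f : Form ι κ) (I : κ → ι) : ι × ι → ℂ :=
  fun p => ∑ k, if I k = p.2 then coeff f (Function.update I k p.1) else 0

theorem killM_co (x : Matrix ι ι ℂ) (f : Form ι κ) (I : κ → ι) :
    killM (Matrix.toLin' x) f (fun l => Pi.single (I l) 1) =
      ∑ p : ι × ι, killCo f I p * x p.1 p.2 := by
  rw [killM_coeff]
  unfold killCo killEq
  simp only [Finset.sum_mul]
  rw [Finset.sum_comm]
  conv_rhs => rw [Finset.sum_comm]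
  refine Finset.sum_congr rfl fun k _ => ?_
  rw [Finset.sum_comm, Fintype.sum_prod_type]
  refine Finset.sum_congr rfl fun b _ => ?_
  rw [Finset.sum_eq_single (Function.update I k b)]
  · rw [if_pos rfl, Finset.sum_eq_single (I k)]
    · rw [if_pos rfl, mul_comm]
    · intro c _ hc
      rw [if_neg (Ne.symm hc), zero_mul]
    · intro h
      exact absurd (Finset.mem_univ _) h
  · intro I' _ hne
    rw [if_neg (Ne.symm hne), zero_mul]
  · intro h
    exact absurd (Finset.mem_univ _) h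

theorem kills_iff_co (x : Matrix ι ι ℂ) (f : Form ι κ) :
    Kills (Matrix.toLin' x) f ↔ ∀ I, ∑ p : ι × ι, killCo f I p * x p.1 p.2 = 0 := by
  rw [kills_iff]
  constructor
  · intro h I
    rw [← killM_co, h]
    rfl
  · intro h
    refine form_single_zero _ fun I => ?_
    rw [killM_co, h]

/-- The annihilator of a family of forms with coefficients in `K` is spanned by matrices with
entries in `K`. -/
theorem annM_span (K : IntermediateField ℚ ℂ) (Φ : ∀ m : ℕ, Form ι (Fin m × Fin 2) → Prop)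
    (hΦ : ∀ m f, Φ m f → HasCoeff K f) {x : Matrix ι ι ℂ} (hx : x ∈ AnnM Φ) :
    x ∈ Submodule.span ℂ {y | y ∈ AnnM Φ ∧ ∀ i j, y i j ∈ K} := by
  let S : Set (ι × ι → ℂ) := {b | ∃ m, ∃ f : Form ι (Fin m × Fin 2), Φ m f ∧ ∃ I, b = killCo f I}
  have hS : ∀ b ∈ S, ∀ i, b i ∈ K := by
    rintro _ ⟨m, f, hf, I, rfl⟩ p
    unfold killCo
    refine sum_mem fun k _ => ?_
    split_ifs
    · exact hΦ m f hf _
    · exact zero_mem _
  have hw : ∀ b ∈ S, ∑ p, b p * (fun p : ι × ι => x p.1 p.2) p = 0 := by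
    rintro _ ⟨m, f, hf, I, rfl⟩
    exact (kills_iff_co x f).1 (hx m f hf) I
  have h1 := rational_span K S hS hw
  let L : (ι × ι → ℂ) →ₗ[ℂ] Matrix ι ι ℂ :=
    { toFun := fun w => Matrix.of fun i j => w (i, j)
      map_add' := fun _ _ => rfl
      map_smul' := fun _ _ => rfl }
  have h2 : L (fun p : ι × ι => x p.1 p.2) ∈ (Submodule.span ℂ
      {u : ι × ι → ℂ | (∀ i, u i ∈ K) ∧ ∀ b ∈ S, ∑ i, b i * u i = 0}).map L := ⟨_, h1, rfl⟩
  rw [Submodule.map_span] at h2
  refine Submodule.span_mono ?_ h2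
  rintro _ ⟨u, ⟨hu1, hu2⟩, rfl⟩
  refine ⟨fun m f hf => ?_, fun i j => hu1 (i, j)⟩
  rw [kills_iff_co]
  intro I
  exact hu2 _ ⟨m, f, hf, I, rfl⟩

/-! ### Dual bases for the trace form -/

/-- A basis of a space of matrices and the dual basis for the trace form, with entries in `K`. -/
structure DualB (K : IntermediateField ℚ ℂ) (g : Submodule ℂ (Matrix ι ι ℂ)) where
  /-- the index set -/
  t : Type
  fin : Fintype t
  /-- the basis -/
  y : t → Matrix ι ι ℂ
  /-- the dual basis -/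
  y' : t → Matrix ι ι ℂ
  y_mem : ∀ i, y i ∈ g
  y'_mem : ∀ i, y' i ∈ g
  y_K : ∀ i p q, y i p q ∈ K
  y'_K : ∀ i p q, y' i p q ∈ K
  exp : ∀ x ∈ g, x = ∑ i, (x * y' i).trace • y i
  exp' : ∀ x ∈ g, x = ∑ i, (x * y i).trace • y' i

theorem trace_sum_mul {t : Type} [Fintype t] (c : t → ℂ) (y : t → Matrix ι ι ℂ)
    (z : Matrix ι ι ℂ) : ((∑ i, c i • y i) * z).trace = ∑ i, c i * (y i * z).trace := by
  rw [Finset.sum_mul, Matrix.trace_sum]
  refine Finset.sum_congr rfl fun i _ => ?_
  rw [Matrix.smul_mul, Matrix.trace_smul, smul_eq_mul]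

theorem exists_dualB (K : IntermediateField ℚ ℂ) (g : Submodule ℂ (Matrix ι ι ℂ))
    (hK : ∀ x ∈ g, x ∈ Submodule.span ℂ {y | y ∈ g ∧ ∀ i j, y i j ∈ K})
    (hnd : ∀ x ∈ g, (∀ y ∈ g, (x * y).trace = 0) → x = 0) : Nonempty (DualB K g) := by
  classical
  obtain ⟨b, hb1, hb2, hb3⟩ := exists_linearIndependent ℂ {y | y ∈ g ∧ ∀ i j, y i j ∈ K}
  have hfin : b.Finite := LinearIndependent.setFinite hb3
  let F := hfin.fintype
  have hspan : ∀ x ∈ g, ∃ c : b → ℂ, x = ∑ i, c i • (i : Matrix ι ι ℂ) := by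
    intro x hx
    have h1 := hK x hx
    rw [← hb2] at h1
    have h2 : x ∈ Submodule.span ℂ (Set.range (fun i : b => (i : Matrix ι ι ℂ))) := by
      rw [Subtype.range_coe]
      exact h1
    obtain ⟨c, hc⟩ := (Submodule.mem_span_range_iff_exists_fun ℂ).1 h2
    exact ⟨c, hc.symm⟩
  -- the Gram matrix
  let gK : Matrix b b K := Matrix.of fun i j =>
    ⟨((i : Matrix ι ι ℂ) * (j : Matrix ι ι ℂ)).trace, by
      rw [Matrix.trace]
      refine sum_mem fun p _ => ?_
      rw [Matrix.diag_apply, Matrix.mul_apply]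
      exact sum_mem fun q _ => mul_mem ((hb1 i.2).2 _ _) ((hb1 j.2).2 _ _)⟩
  have hg : ∀ i j, ((gK i j : K) : ℂ) = ((i : Matrix ι ι ℂ) * (j : Matrix ι ι ℂ)).trace :=
    fun i j => rfl
  have hdet : gK.det ≠ 0 := by
    intro h0
    have h1 : (gK.map (algebraMap K ℂ)).det = 0 := by
      rw [← RingHom.mapMatrix_apply, ← RingHom.map_det, h0, map_zero]
    obtain ⟨c, hc, hc0⟩ := Matrix.exists_mulVec_eq_zero_iff.2 h1
    apply hc
    have h2 : ∑ j, c j • (j : Matrix ι ι ℂ) = 0 := by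
      apply hnd _ (Submodule.sum_mem _ fun j _ => Submodule.smul_mem _ _ (hb1 j.2).1)
      intro y hy
      obtain ⟨d, rfl⟩ := hspan y hy
      rw [Matrix.trace_mul_comm, trace_sum_mul]
      refine Finset.sum_eq_zero fun i _ => ?_
      have h3 := congrFun hc0 i
      rw [Matrix.trace_mul_comm, trace_sum_mul]
      rw [Matrix.mulVec, dotProduct, Pi.zero_apply] at h3
      rw [← mul_zero (d i), ← h3]
      congr 1
      refine Finset.sum_congr rfl fun j _ => ?_
      rw [Matrix.map_apply, mul_comm, Matrix.trace_mul_comm]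
      rfl
    have h3 := (Fintype.linearIndependent_iff.1 hb3) c h2
    funext j
    exact h3 j
  have hinv : gK⁻¹ * gK = 1 := Matrix.nonsing_inv_mul _ (isUnit_iff_ne_zero.2 hdet)
  let y' : b → Matrix ι ι ℂ := fun i => ∑ j, ((gK⁻¹ i j : K) : ℂ) • (j : Matrix ι ι ℂ)
  have hdual : ∀ i j : b, (y' i * (j : Matrix ι ι ℂ)).trace = if i = j then 1 else 0 := by
    intro i j
    rw [trace_sum_mul]
    have h1 := congrArg (fun M : Matrix b b K => ((M i j : K) : ℂ)) hinv
    simp only [Matrix.mul_apply, Matrix.one_apply] at h1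
    rw [AddSubmonoidClass.coe_finsetSum] at h1
    by_cases hij : i = j
    · rw [if_pos hij] at h1 ⊢
      exact h1
    · rw [if_neg hij] at h1 ⊢
      exact h1
  have hy'mem : ∀ i, y' i ∈ g := fun i =>
    Submodule.sum_mem _ fun j _ => Submodule.smul_mem _ _ (hb1 j.2).1
  have hexp : ∀ x ∈ g, x = ∑ i : b, (x * y' i).trace • (i : Matrix ι ι ℂ) := by
    intro x hx
    obtain ⟨c, rfl⟩ := hspan x hx
    refine Finset.sum_congr rfl fun i _ => ?_
    congr 1
    rw [trace_sum_mul, Finset.sum_eq_single i]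
    · rw [Matrix.trace_mul_comm, hdual, if_pos rfl, mul_one]
    · intro j _ hj
      rw [Matrix.trace_mul_comm, hdual, if_neg (Ne.symm hj), mul_zero]
    · intro h
      exact absurd (Finset.mem_univ _) h
  refine ⟨⟨b, F, fun i => i, y', fun i => (hb1 i.2).1, hy'mem, fun i => (hb1 i.2).2, ?_, hexp,
    ?_⟩⟩
  · intro i p q
    change (∑ j, ((gK⁻¹ i j : K) : ℂ) • (j : Matrix ι ι ℂ)) p q ∈ K
    rw [Matrix.sum_apply]
    refine sum_mem fun j _ => ?_
    rw [Matrix.smul_apply, smul_eq_mul]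
    exact mul_mem (gK⁻¹ i j).2 ((hb1 j.2).2 _ _)
  · intro x hx
    rw [← sub_eq_zero]
    have hm : x - ∑ i : b, (x * (i : Matrix ι ι ℂ)).trace • y' i ∈ g :=
      sub_mem hx (Submodule.sum_mem _ fun i _ => Submodule.smul_mem _ _ (hy'mem i))
    apply hnd _ hm
    intro y hy
    obtain ⟨c, rfl⟩ := hspan y hy
    rw [Matrix.trace_mul_comm, trace_sum_mul]
    refine Finset.sum_eq_zero fun j _ => ?_
    rw [Matrix.trace_mul_comm, Matrix.sub_mul, Matrix.trace_sub, trace_sum_mul,
      Finset.sum_eq_single j]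
    · rw [hdual, if_pos rfl, mul_one, sub_self, mul_zero]
    · intro i _ hi
      rw [hdual, if_neg hi, mul_zero]
    · intro h
      exact absurd (Finset.mem_univ _) h

end

end Pool.Agent.W537.DB
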