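import Pool.Agent.W537.DB.Cas

/-!
# The Casimir form, II
-/

set_option linter.unusedSectionVars false

namespace Pool.Agent.W537.DB

open Matrix Pool.Agent.H204R3.SP Pool.Agent.H204R3.CM

noncomputable section

variable {ι : Type} [Fintype ι] [DecidableEq ι]

theorem killM_form_sum {κ : Type} [Fintype κ] [DecidableEq κ] {t : Type} [Fintype t]
    (X : Module.End ℂ (ι → ℂ)) (f : t → Form ι κ) :
    killM X (∑ i, f i) = ∑ i, killM X (f i) := by
  classical
  refine MultilinearMap.ext fun v => ?_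
  rw [killM_apply, _root_.sum_apply]
  simp only [killM_apply, _root_.sum_apply]
  rw [Finset.sum_comm]

theorem killM_pf (z M N : Matrix ι ι ℂ) (v : Fin 2 × Fin 2 → ι → ℂ) :
    killM (Matrix.toLin' z) (prodForm 1 ![M, N]) v =
      v (0, 0) ⬝ᵥ ((z.transpose * M + M * z) *ᵥ v (0, 1)) * (v (1, 0) ⬝ᵥ (N *ᵥ v (1, 1))) +
      v (0, 0) ⬝ᵥ (M *ᵥ v (0, 1)) *
        (v (1, 0) ⬝ᵥ ((z.transpose * N + N * z) *ᵥ v (1, 1))) := by
  have hz : ∀ (u w : ι → ℂ) (P : Matrix ι ι ℂ), (z *ᵥ u) ⬝ᵥ (P *ᵥ w) + u ⬝ᵥ (P *ᵥ (z *ᵥ w)) =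
      u ⬝ᵥ ((z.transpose * P + P * z) *ᵥ w) := by
    intro u w P
    rw [Matrix.add_mulVec, dotProduct_add]
    congr 1
    · rw [← Matrix.mulVec_mulVec, Matrix.dotProduct_mulVec _ z.transpose, Matrix.vecMul_transpose]
    · rw [Matrix.mulVec_mulVec]
  rw [← hz, ← hz, killM_apply, Fintype.sum_prod_type, Fin.sum_univ_two, Fin.sum_univ_two,
    Fin.sum_univ_two]
  simp only [prodForm_apply, Fin.prod_univ_two, Equiv.Perm.one_apply, Matrix.toLin'_apply,
    Matrix.cons_val_zero, Matrix.cons_val_one]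
  have h00 : ∀ (k l : Fin 2 × Fin 2) (x : ι → ℂ), k ≠ l → Function.update v l x k = v k :=
    fun k l x h => Function.update_of_ne h _ _
  rw [h00 (0, 1) (0, 0) _ (by decide), h00 (1, 0) (0, 0) _ (by decide),
    h00 (1, 1) (0, 0) _ (by decide), h00 (0, 0) (0, 1) _ (by decide),
    h00 (1, 0) (0, 1) _ (by decide), h00 (1, 1) (0, 1) _ (by decide),
    h00 (0, 0) (1, 0) _ (by decide), h00 (0, 1) (1, 0) _ (by decide),
    h00 (1, 1) (1, 0) _ (by decide), h00 (0, 0) (1, 1) _ (by decide),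
    h00 (0, 1) (1, 1) _ (by decide), h00 (1, 0) (1, 1) _ (by decide), Function.update_self,
    Function.update_self, Function.update_self, Function.update_self]
  ring

variable (A : AbVar ι) {K : IntermediateField ℚ ℂ} {g : Submodule ℂ (Matrix ι ι ℂ)}

theorem casimir_inv (D : DualB K g) (hg : ∀ x ∈ g, ∀ y ∈ g, x * y - y * x ∈ g)
    {z : Matrix ι ι ℂ} (hz : z ∈ g) (a b : Matrix ι ι ℂ →ₗ[ℂ] ℂ) :
    letI := D.fin
    ∑ i, (a (D.y i * z - z * D.y i) * b (D.y' i) + a (D.y i) * b (D.y' i * z - z * D.y' i)) =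
      0 := by
  let _ := D.fin
  change ∑ i, (a (D.y i * z - z * D.y i) * b (D.y' i) + a (D.y i) * b (D.y' i * z - z * D.y' i)) =
      0
  have h1 : ∀ i, a (D.y i * z - z * D.y i) =
      ∑ j, ((D.y i * z - z * D.y i) * D.y' j).trace * a (D.y j) := by
    intro i
    conv_lhs => rw [D.exp _ (hg _ (D.y_mem i) _ hz)]
    rw [map_sum]
    exact Finset.sum_congr rfl fun j _ => by rw [map_smul, smul_eq_mul]
  have h2 : ∀ i, b (D.y' i * z - z * D.y' i) =
      ∑ j, ((D.y' i * z - z * D.y' i) * D.y j).trace * b (D.y' j) := by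
    intro i
    conv_lhs => rw [D.exp' _ (hg _ (D.y'_mem i) _ hz)]
    rw [map_sum]
    exact Finset.sum_congr rfl fun j _ => by rw [map_smul, smul_eq_mul]
  have h3 : ∀ i j, ((D.y i * z - z * D.y i) * D.y' j).trace +
      ((D.y' j * z - z * D.y' j) * D.y i).trace = 0 := by
    intro i j
    rw [Matrix.sub_mul, Matrix.sub_mul, Matrix.trace_sub, Matrix.trace_sub,
      Matrix.mul_assoc z (D.y i), Matrix.mul_assoc z (D.y' j),
      Matrix.mul_assoc (D.y i), Matrix.mul_assoc (D.y' j), Matrix.trace_mul_comm (D.y i),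
      Matrix.trace_mul_comm (D.y' j), Matrix.mul_assoc z, Matrix.mul_assoc z]
    ring
  simp only [h1, h2, Finset.sum_add_distrib, Finset.sum_mul, Finset.mul_sum]
  rw [Finset.sum_comm (f := fun i j => a (D.y i) *
    (((D.y' i * z - z * D.y' i) * D.y j).trace * b (D.y' j))), ← Finset.sum_add_distrib]
  refine Finset.sum_eq_zero fun i _ => ?_
  rw [← Finset.sum_add_distrib]
  refine Finset.sum_eq_zero fun j _ => ?_
  linear_combination (a (D.y j) * b (D.y' i)) * h3 i j

/-- The Casimir form. -/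
def AbVar.casimir (D : DualB K g) : Form ι (Fin 2 × Fin 2) :=
  letI := D.fin
  ∑ i, prodForm 1 ![A.EC * D.y i, A.EC * D.y' i]

/-- The linear form `x ↦ u ⬝ᵥ (E x w)`. -/
def AbVar.lf (u w : ι → ℂ) : Matrix ι ι ℂ →ₗ[ℂ] ℂ where
  toFun x := u ⬝ᵥ ((A.EC * x) *ᵥ w)
  map_add' x y := by
    rw [Matrix.mul_add, Matrix.add_mulVec, dotProduct_add]
  map_smul' c x := by
    rw [Matrix.mul_smul, Matrix.smul_mulVec, dotProduct_smul]
    rfl

theorem AbVar.killM_casimir (D : DualB K g) {z : Matrix ι ι ℂ}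
    (hz : z.transpose * A.EC = -(A.EC * z)) (v : Fin 2 × Fin 2 → ι → ℂ) :
    letI := D.fin
    killM (Matrix.toLin' z) (A.casimir D) v =
      ∑ i, (A.lf (v (0, 0)) (v (0, 1)) (D.y i * z - z * D.y i) *
          A.lf (v (1, 0)) (v (1, 1)) (D.y' i) +
        A.lf (v (0, 0)) (v (0, 1)) (D.y i) *
          A.lf (v (1, 0)) (v (1, 1)) (D.y' i * z - z * D.y' i)) := by
  let _ := D.fin
  unfold AbVar.casimir
  rw [killM_form_sum, _root_.sum_apply]
  refine Finset.sum_congr rfl fun i _ => ?_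
  rw [killM_pf]
  have h1 : ∀ y : Matrix ι ι ℂ, z.transpose * (A.EC * y) + A.EC * y * z =
      A.EC * (y * z - z * y) := by
    intro y
    rw [← Matrix.mul_assoc, hz, Matrix.neg_mul, Matrix.mul_sub, Matrix.mul_assoc, Matrix.mul_assoc]
    abel
  rw [h1, h1]
  rfl

theorem AbVar.casimir_K (D : DualB K g) : HasCoeff K (A.casimir D) := by
  let _ := D.fin
  intro I
  unfold AbVar.casimir
  rw [_root_.sum_apply]
  refine sum_mem fun i _ => ?_
  rw [prodForm_apply, Fin.prod_univ_two]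
  have h1 : ∀ (y : Matrix ι ι ℂ) (hy : ∀ p q, y p q ∈ K) (p q : ι),
      (Pi.single p 1 : ι → ℂ) ⬝ᵥ ((A.EC * y) *ᵥ Pi.single q 1) ∈ K := by
    intro y hy p q
    rw [single_one_dotProduct, Matrix.mulVec_single_one]
    change (A.EC * y) p q ∈ K
    rw [Matrix.mul_apply]
    exact sum_mem fun r _ => mul_mem (ratCast_mem K _) (hy _ _)
  exact mul_mem (h1 _ (D.y_K i) _ _) (h1 _ (D.y'_K i) _ _)

theorem AbVar.casimir_killed (D : DualB K g) (hg : ∀ x ∈ g, ∀ y ∈ g, x * y - y * x ∈ g)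
    {z : Matrix ι ι ℂ} (hz : z ∈ g) (hz' : z.transpose * A.EC = -(A.EC * z)) :
    Kills (Matrix.toLin' z) (A.casimir D) := by
  rw [kills_iff]
  refine MultilinearMap.ext fun v => ?_
  rw [A.killM_casimir D hz']
  exact casimir_inv D hg hz _ _

theorem AbVar.lf_single (p q : ι) (x : Matrix ι ι ℂ) :
    A.lf (Pi.single p 1) (Pi.single q 1) x = (A.EC * x) p q := by
  change (Pi.single p 1 : ι → ℂ) ⬝ᵥ ((A.EC * x) *ᵥ Pi.single q 1) = _
  rw [single_one_dotProduct, Matrix.mulVec_single_one]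
  rfl

/-- A matrix that kills the Casimir form normalises the Lie algebra. -/
theorem AbVar.casimir_norm (D : DualB K g) {h : Matrix ι ι ℂ}
    (hh : h.transpose * A.EC = -(A.EC * h)) (hk : Kills (Matrix.toLin' h) (A.casimir D))
    {x : Matrix ι ι ℂ} (hx : x ∈ g) : x * h - h * x ∈ g := by
  let _ := D.fin
  rw [kills_iff] at hk
  have h1 : ∀ p q r s : ι, ∑ i, ((A.EC * (D.y i * h - h * D.y i)) p q * (A.EC * D.y' i) r s +
      (A.EC * D.y i) p q * (A.EC * (D.y' i * h - h * D.y' i)) r s) = 0 := by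
    intro p q r s
    have h2 := A.killM_casimir D hh
      (fun k => Pi.single (if k = (0, 0) then p else if k = (0, 1) then q else
        if k = (1, 0) then r else s) 1)
    rw [hk] at h2
    have e1 : ((0, 1) : Fin 2 × Fin 2) ≠ (0, 0) := by decide
    have e2 : ((1, 0) : Fin 2 × Fin 2) ≠ (0, 0) := by decide
    have e3 : ((1, 0) : Fin 2 × Fin 2) ≠ (0, 1) := by decide
    have e4 : ((1, 1) : Fin 2 × Fin 2) ≠ (0, 0) := by decide
    have e5 : ((1, 1) : Fin 2 × Fin 2) ≠ (0, 1) := by decide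
    have e6 : ((1, 1) : Fin 2 × Fin 2) ≠ (1, 0) := by decide
    simp only [if_true, if_neg e1, if_neg e2, if_neg e3, if_neg e4, if_neg e5, if_neg e6,
      A.lf_single] at h2
    exact h2.symm
  -- the contraction with a matrix
  have h3 : ∀ (w : Matrix ι ι ℂ), ∑ i, ((D.y' i * w).trace • (D.y i * h - h * D.y i) +
      ((D.y' i * h - h * D.y' i) * w).trace • D.y i) = 0 := by
    intro w
    have h4 : ∀ M : Matrix ι ι ℂ, ∑ r, ∑ s, (A.EC * M) r s * (w * A.EI) s r = (M * w).trace := by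
      intro M
      have h5 : (A.EC * M * (w * A.EI)).trace = (M * w).trace := by
        rw [Matrix.mul_assoc, ← Matrix.mul_assoc M, Matrix.trace_mul_comm, Matrix.mul_assoc,
          A.EI_mul, Matrix.mul_one]
      rw [← h5, Matrix.trace]
      refine Finset.sum_congr rfl fun r _ => ?_
      rw [Matrix.diag_apply, Matrix.mul_apply]
    have h6 : A.EC * (∑ i, ((D.y' i * w).trace • (D.y i * h - h * D.y i) +
      ((D.y' i * h - h * D.y' i) * w).trace • D.y i)) = 0 := by
      ext p q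
      have h7 : ∑ r, ∑ s, (∑ i, ((A.EC * (D.y i * h - h * D.y i)) p q * (A.EC * D.y' i) r s +
        (A.EC * D.y i) p q * (A.EC * (D.y' i * h - h * D.y' i)) r s)) * (w * A.EI) s r = 0 := by
        refine Finset.sum_eq_zero fun r _ => Finset.sum_eq_zero fun s _ => ?_
        rw [h1, zero_mul]
      rw [Matrix.mul_sum, Matrix.sum_apply, Matrix.zero_apply, ← h7]
      simp only [Finset.sum_mul]
      rw [Finset.sum_congr rfl (fun r _ => Finset.sum_comm), Finset.sum_comm]
      refine Finset.sum_congr rfl fun i _ => ?_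
      rw [Matrix.mul_add, Matrix.add_apply, Matrix.mul_smul, Matrix.mul_smul, Matrix.smul_apply,
        Matrix.smul_apply, smul_eq_mul, smul_eq_mul, ← h4, ← h4]
      simp only [Finset.sum_mul, add_mul, Finset.sum_add_distrib]
      congr 1
      · refine Finset.sum_congr rfl fun r _ => Finset.sum_congr rfl fun s _ => ?_
        ring
      · refine Finset.sum_congr rfl fun r _ => Finset.sum_congr rfl fun s _ => ?_
        ring
    have h8 := congrArg (fun M => A.EI * M) h6
    simp only [← Matrix.mul_assoc, A.EI_mul, Matrix.one_mul, Matrix.mul_zero] at h8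
    exact h8
  have h9 := h3 x
  rw [Finset.sum_add_distrib] at h9
  have h10 : ∑ i, (D.y' i * x).trace • (D.y i * h - h * D.y i) = x * h - h * x := by
    have h11 := D.exp x hx
    conv_rhs => rw [h11]
    rw [Finset.sum_mul, Finset.mul_sum, ← Finset.sum_sub_distrib]
    refine Finset.sum_congr rfl fun i _ => ?_
    rw [smul_sub, Matrix.smul_mul, Matrix.mul_smul, Matrix.trace_mul_comm]
  rw [h10] at h9
  rw [eq_neg_of_add_eq_zero_left h9]
  exact neg_mem (Submodule.sum_mem _ fun i _ => Submodule.smul_mem _ _ (D.y_mem i))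

/-- The decomposition of a matrix that normalises the Lie algebra. -/
theorem norm_decomp (D : DualB K g) (hg : ∀ x ∈ g, ∀ y ∈ g, x * y - y * x ∈ g)
    (hnd : ∀ x ∈ g, (∀ y ∈ g, (x * y).trace = 0) → x = 0) {h : Matrix ι ι ℂ}
    (hn : ∀ x ∈ g, x * h - h * x ∈ g) : ∃ h₁ ∈ g, ∀ x ∈ g, x * (h - h₁) = (h - h₁) * x := by
  let _ := D.fin
  refine ⟨∑ i, (h * D.y' i).trace • D.y i,
    Submodule.sum_mem _ fun i _ => Submodule.smul_mem _ _ (D.y_mem i), fun x hx => ?_⟩
  have hm : (∑ i, (h * D.y' i).trace • D.y i) ∈ g :=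
    Submodule.sum_mem _ fun i _ => Submodule.smul_mem _ _ (D.y_mem i)
  have h1 : ∀ y ∈ g, ((h - ∑ i, (h * D.y' i).trace • D.y i) * y).trace = 0 := by
    intro y hy
    rw [Matrix.sub_mul, Matrix.trace_sub, trace_sum_mul, sub_eq_zero]
    conv_lhs => rw [D.exp' y hy, Finset.mul_sum, Matrix.trace_sum]
    refine Finset.sum_congr rfl fun i _ => ?_
    rw [Matrix.mul_smul, Matrix.trace_smul, smul_eq_mul, Matrix.trace_mul_comm y, mul_comm]
  set h₁ := ∑ i, (h * D.y' i).trace • D.y i with hh₁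
  have h2 : x * (h - h₁) - (h - h₁) * x ∈ g := by
    have : x * (h - h₁) - (h - h₁) * x = (x * h - h * x) - (x * h₁ - h₁ * x) := by
      rw [Matrix.mul_sub, Matrix.sub_mul]
      abel
    rw [this]
    exact sub_mem (hn x hx) (hg x hx _ hm)
  rw [← sub_eq_zero]
  apply hnd _ h2
  intro y hy
  have h3 : ((x * (h - h₁) - (h - h₁) * x) * y).trace = ((h - h₁) * (y * x - x * y)).trace := by
    generalize h - h₁ = k
    rw [Matrix.sub_mul, Matrix.trace_sub, Matrix.mul_sub, Matrix.trace_sub,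
      Matrix.mul_assoc x, Matrix.trace_mul_comm x, Matrix.mul_assoc k y x,
      Matrix.mul_assoc k x y]
  rw [h3]
  exact h1 _ (hg y hy x hx)

end

end Pool.Agent.W537.DB
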