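import Mathlib

/-!
# Orthogonal complements for a positive definite hermitian form
-/

namespace Pool.Agent.W537.DB

theorem exists_compl {V : Type*} [AddCommGroup V] [Module ℂ V] [FiniteDimensional ℂ V]
    (c : InnerProductSpace.Core ℂ V) (U : Submodule ℂ V) :
    ∃ U' : Submodule ℂ V, IsCompl U U' ∧ ∀ w, w ∈ U' ↔ ∀ u ∈ U, c.inner u w = 0 := by
  let i1 : NormedAddCommGroup V := c.toNormedAddCommGroup
  let i2 : InnerProductSpace ℂ V := InnerProductSpace.ofCore c.toCore
  have : FiniteDimensional ℂ U := inferInstance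
  refine ⟨Uᗮ, U.isCompl_orthogonal, fun w => ?_⟩
  exact Submodule.mem_orthogonal _ _

end Pool.Agent.W537.DB
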