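import Pool.Agent.W537.DB.Defs
import Pool.Agent.W537.DB.Ortho

/-!
# The commutant of the endomorphisms of an abelian variety
-/

set_option linter.unusedSectionVars false

namespace Pool.Agent.W537.DB

open Matrix

noncomputable section

variable {ι : Type} [Fintype ι] [DecidableEq ι]

/-- A rational matrix as a complex matrix. -/
abbrev toC (M : Matrix ι ι ℚ) : Matrix ι ι ℂ := M.map (fun q : ℚ => (q : ℂ))

/-- A rational matrix as a real matrix. -/
abbrev toR (M : Matrix ι ι ℚ) : Matrix ι ι ℝ := M.map (fun q : ℚ => (q : ℝ))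

/-- A real matrix as a complex matrix. -/
abbrev rC (M : Matrix ι ι ℝ) : Matrix ι ι ℂ := M.map (fun x : ℝ => (x : ℂ))

theorem toC_mul (M N : Matrix ι ι ℚ) : toC (M * N) = toC M * toC N :=
  Matrix.map_mul (f := Rat.castHom ℂ)

theorem toR_mul (M N : Matrix ι ι ℚ) : toR (M * N) = toR M * toR N :=
  Matrix.map_mul (f := Rat.castHom ℝ)

theorem rC_mul (M N : Matrix ι ι ℝ) : rC (M * N) = rC M * rC N :=
  Matrix.map_mul (f := Complex.ofRealHom)

theorem toC_one : toC (1 : Matrix ι ι ℚ) = 1 :=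
  Matrix.map_one _ Rat.cast_zero Rat.cast_one

theorem rC_one : rC (1 : Matrix ι ι ℝ) = 1 :=
  Matrix.map_one _ Complex.ofReal_zero Complex.ofReal_one

theorem rC_neg (M : Matrix ι ι ℝ) : rC (-M) = -rC M := by
  ext i j
  simp

theorem toC_neg (M : Matrix ι ι ℚ) : toC (-M) = -toC M := by
  ext i j
  simp

theorem rC_toR (M : Matrix ι ι ℚ) : rC (toR M) = toC M := by
  ext i j
  simp

theorem rC_injective : Function.Injective (rC (ι := ι)) := by
  intro M N h
  ext i j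
  have := congrFun (congrFun h i) j
  simpa using this

theorem toR_injective : Function.Injective (toR (ι := ι)) := by
  intro M N h
  ext i j
  have := congrFun (congrFun h i) j
  simpa using this

theorem toC_injective : Function.Injective (toC (ι := ι)) := by
  intro M N h
  ext i j
  have := congrFun (congrFun h i) j
  simpa using this

variable (A : AbVar ι)

/-- The complex structure, extended to `H_1(A, ℂ)`. -/
def AbVar.JC : Matrix ι ι ℂ := rC A.J

/-- The polarization, extended to `H_1(A, ℂ)`. -/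
def AbVar.EC : Matrix ι ι ℂ := toC A.E

theorem AbVar.JC_sq : A.JC * A.JC = -1 := by
  unfold AbVar.JC
  rw [← rC_mul, A.J_sq, rC_neg, rC_one]

theorem AbVar.JT_E : A.J.transpose * toR A.E = -(toR A.E * A.J) := by
  have h1 := congrArg (fun M => M * A.J) A.E_J
  simp only [Matrix.mul_assoc, A.J_sq] at h1
  rw [Matrix.mul_neg, Matrix.mul_one, Matrix.mul_neg] at h1
  rw [← h1, neg_neg]

theorem AbVar.JCT_E : A.JC.transpose * A.EC = -(A.EC * A.JC) := by
  have h1 := congrArg rC A.JT_E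
  rw [rC_neg, rC_mul, rC_mul, rC_toR] at h1
  exact h1

theorem AbVar.EC_T : A.EC.transpose = -A.EC := by
  unfold AbVar.EC
  rw [← toC_neg, ← A.E_alt]
  rfl

theorem AbVar.real_pos (v : ι → ℝ) (hv : v ≠ 0) : 0 < v ⬝ᵥ ((toR A.E * A.J) *ᵥ v) :=
  A.E_pos v hv

theorem AbVar.EJ_det : (toR A.E * A.J).det ≠ 0 := by
  intro h
  obtain ⟨v, hv, hv0⟩ := Matrix.exists_mulVec_eq_zero_iff.2 h
  have := A.real_pos v hv
  rw [hv0, dotProduct_zero] at this
  exact lt_irrefl _ this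

theorem AbVar.E_det : A.E.det ≠ 0 := by
  intro h
  apply A.EJ_det
  rw [Matrix.det_mul]
  have : (toR A.E).det = ((A.E.det : ℚ) : ℝ) := (RingHom.map_det (Rat.castHom ℝ) A.E).symm
  rw [this, h, Rat.cast_zero, zero_mul]

theorem AbVar.E_inv_mul : A.E⁻¹ * A.E = 1 :=
  Matrix.nonsing_inv_mul _ (isUnit_iff_ne_zero.2 A.E_det)

theorem AbVar.E_mul_inv : A.E * A.E⁻¹ = 1 :=
  Matrix.mul_nonsing_inv _ (isUnit_iff_ne_zero.2 A.E_det)

/-- The inverse of `EC`. -/
def AbVar.EI : Matrix ι ι ℂ := toC A.E⁻¹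

theorem AbVar.EI_mul : A.EI * A.EC = 1 := by
  unfold AbVar.EI AbVar.EC
  rw [← toC_mul, A.E_inv_mul, toC_one]

theorem AbVar.mul_EI : A.EC * A.EI = 1 := by
  unfold AbVar.EI AbVar.EC
  rw [← toC_mul, A.E_mul_inv, toC_one]

theorem AbVar.EI_T : A.EI.transpose = -A.EI := by
  have h1 := congrArg Matrix.transpose A.EI_mul
  rw [Matrix.transpose_mul, A.EC_T, Matrix.transpose_one] at h1
  have h2 := congrArg (fun M => A.EI * M) h1
  simp only [Matrix.neg_mul, Matrix.mul_neg, ← Matrix.mul_assoc, A.EI_mul, Matrix.one_mul,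
    Matrix.mul_one] at h2
  exact neg_eq_iff_eq_neg.1 h2

/-- The adjoint with respect to the polarization. -/
def AbVar.adj (x : Matrix ι ι ℂ) : Matrix ι ι ℂ := A.EI * x.transpose * A.EC

theorem AbVar.adj_spec (x : Matrix ι ι ℂ) : (A.adj x).transpose * A.EC = A.EC * x := by
  unfold AbVar.adj
  rw [Matrix.transpose_mul, Matrix.transpose_mul, Matrix.transpose_transpose, A.EC_T, A.EI_T]
  simp only [Matrix.mul_neg, Matrix.neg_mul, neg_neg, Matrix.mul_assoc, A.EI_mul, Matrix.mul_one]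

theorem AbVar.adj_adj (x : Matrix ι ι ℂ) : A.adj (A.adj x) = x := by
  have h1 := A.adj_spec x
  have h2 : A.adj (A.adj x) = A.EI * (A.EC * x) := by
    rw [← h1, ← Matrix.mul_assoc]
    rfl
  rw [h2, ← Matrix.mul_assoc, A.EI_mul, Matrix.one_mul]

theorem AbVar.adj_mul (x y : Matrix ι ι ℂ) : A.adj (x * y) = A.adj y * A.adj x := by
  unfold AbVar.adj
  have : A.EI * y.transpose * A.EC * (A.EI * x.transpose * A.EC) =
      A.EI * y.transpose * (A.EC * A.EI) * x.transpose * A.EC := by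
    simp only [Matrix.mul_assoc]
  rw [this, A.mul_EI, Matrix.mul_one, Matrix.transpose_mul]
  simp only [Matrix.mul_assoc]

theorem AbVar.adj_JC : A.adj A.JC = -A.JC := by
  unfold AbVar.adj
  rw [Matrix.mul_assoc, A.JCT_E, Matrix.mul_neg, ← Matrix.mul_assoc, A.EI_mul, Matrix.one_mul]

/-- The algebra of the complex matrices that commute with all endomorphisms. -/
def AbVar.B : Subalgebra ℂ (Matrix ι ι ℂ) :=
  Subalgebra.centralizer ℂ {x | ∃ P : Matrix ι ι ℚ, A.IsEnd P ∧ x = toC P}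

theorem AbVar.mem_B {x : Matrix ι ι ℂ} :
    x ∈ A.B ↔ ∀ P : Matrix ι ι ℚ, A.IsEnd P → toC P * x = x * toC P := by
  unfold AbVar.B
  rw [Subalgebra.mem_centralizer_iff]
  constructor
  · intro h P hP
    exact h _ ⟨P, hP, rfl⟩
  · rintro h _ ⟨P, hP, rfl⟩
    exact h P hP

theorem AbVar.JC_mem : A.JC ∈ A.B := by
  rw [A.mem_B]
  intro P hP
  have h1 := congrArg rC hP
  rw [rC_mul, rC_mul, rC_toR] at h1
  exact h1

/-- The adjoint of a rational endomorphism. -/
def AbVar.radj (P : Matrix ι ι ℚ) : Matrix ι ι ℚ := A.E⁻¹ * P.transpose * A.E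

theorem AbVar.toC_radj (P : Matrix ι ι ℚ) : toC (A.radj P) = A.adj (toC P) := by
  unfold AbVar.radj AbVar.adj
  rw [toC_mul, toC_mul]
  rfl

theorem AbVar.radj_isEnd {P : Matrix ι ι ℚ} (hP : A.IsEnd P) : A.IsEnd (A.radj P) := by
  have h0 : toC P * A.JC = A.JC * toC P := A.mem_B.1 A.JC_mem P hP
  have h1 := congrArg A.adj h0
  rw [A.adj_mul, A.adj_mul, A.adj_JC, Matrix.neg_mul, Matrix.mul_neg, neg_inj,
    ← A.toC_radj] at h1
  apply rC_injective
  rw [rC_mul, rC_mul, rC_toR]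
  exact h1.symm

theorem AbVar.adj_mem {x : Matrix ι ι ℂ} (hx : x ∈ A.B) : A.adj x ∈ A.B := by
  rw [A.mem_B] at hx ⊢
  intro P hP
  have h1 := hx _ (A.radj_isEnd hP)
  have h2 := congrArg A.adj h1
  rw [A.adj_mul, A.adj_mul, A.toC_radj, A.adj_adj] at h2
  exact h2.symm

/-- Entrywise complex conjugation. -/
def cj (x : Matrix ι ι ℂ) : Matrix ι ι ℂ := x.map (starRingEnd ℂ)

theorem cj_mul (x y : Matrix ι ι ℂ) : cj (x * y) = cj x * cj y :=
  Matrix.map_mul (f := starRingEnd ℂ)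

theorem cj_toC (P : Matrix ι ι ℚ) : cj (toC P) = toC P := by
  ext i j
  simp [cj]

theorem AbVar.cj_mem {x : Matrix ι ι ℂ} (hx : x ∈ A.B) : cj x ∈ A.B := by
  rw [A.mem_B] at hx ⊢
  intro P hP
  have h2 := congrArg cj (hx P hP)
  rw [cj_mul, cj_mul, cj_toC] at h2
  exact h2

/-- The matrix of the hermitian form. -/
def AbVar.H : Matrix ι ι ℂ := A.EC * A.JC

theorem AbVar.H_T : A.H.transpose = A.H := by
  unfold AbVar.H
  rw [Matrix.transpose_mul, A.EC_T, Matrix.mul_neg, A.JCT_E, neg_neg]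

theorem AbVar.H_eq : A.H = rC (toR A.E * A.J) := by
  unfold AbVar.H AbVar.EC AbVar.JC
  rw [rC_mul, rC_toR]

theorem AbVar.H_star (v : ι → ℂ) : star (A.H *ᵥ v) = A.H *ᵥ star v := by
  rw [A.H_eq]
  funext i
  simp only [Pi.star_apply, Matrix.mulVec, dotProduct, star_sum, star_mul', Matrix.map_apply]
  refine Finset.sum_congr rfl fun j _ => ?_
  rw [Complex.star_def, Complex.conj_ofReal]

theorem AbVar.H_symm (u w : ι → ℂ) : u ⬝ᵥ (A.H *ᵥ w) = w ⬝ᵥ (A.H *ᵥ u) := by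
  rw [Matrix.dotProduct_mulVec, ← Matrix.mulVec_transpose, A.H_T, dotProduct_comm]

theorem AbVar.H_real (a b : ι → ℝ) : (fun i => (a i : ℂ)) ⬝ᵥ (A.H *ᵥ fun i => (b i : ℂ)) =
    ((a ⬝ᵥ ((toR A.E * A.J) *ᵥ b) : ℝ) : ℂ) := by
  rw [A.H_eq]
  simp only [dotProduct, Matrix.mulVec, Matrix.map_apply]
  push_cast
  rfl

theorem AbVar.H_pos' (a b : ι → ℝ) :
    star ((fun i => (a i : ℂ)) + Complex.I • (fun i => (b i : ℂ))) ⬝ᵥ
      (A.H *ᵥ ((fun i => (a i : ℂ)) + Complex.I • (fun i => (b i : ℂ)))) =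
    ((a ⬝ᵥ ((toR A.E * A.J) *ᵥ a) + b ⬝ᵥ ((toR A.E * A.J) *ᵥ b) : ℝ) : ℂ) := by
  have h2 : star ((fun i => (a i : ℂ)) + Complex.I • (fun i => (b i : ℂ))) =
      (fun i => (a i : ℂ)) - Complex.I • (fun i => (b i : ℂ)) := by
    funext i
    rw [Pi.star_apply, Pi.sub_apply, Pi.smul_apply, smul_eq_mul]
    apply Complex.ext <;> simp
  rw [h2]
  simp only [Matrix.mulVec_add, Matrix.mulVec_smul, sub_dotProduct, dotProduct_add, smul_dotProduct,
    dotProduct_smul, smul_eq_mul]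
  rw [A.H_symm (fun i => (b i : ℂ)) (fun i => (a i : ℂ)), A.H_real, A.H_real, A.H_real]
  push_cast
  have := Complex.I_mul_I
  linear_combination (-((b ⬝ᵥ ((toR A.E * A.J) *ᵥ b) : ℝ) : ℂ)) * this

theorem AbVar.H_pos (u : ι → ℂ) : star u ⬝ᵥ (A.H *ᵥ u) =
    (((fun i => (u i).re) ⬝ᵥ ((toR A.E * A.J) *ᵥ fun i => (u i).re) +
      (fun i => (u i).im) ⬝ᵥ ((toR A.E * A.J) *ᵥ fun i => (u i).im) : ℝ) : ℂ) := by
  have h1 : (fun i => ((u i).re : ℂ)) + Complex.I • (fun i => ((u i).im : ℂ)) = u := by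
    funext i
    rw [Pi.add_apply, Pi.smul_apply, smul_eq_mul, mul_comm]
    exact Complex.re_add_im _
  have h2 := A.H_pos' (fun i => (u i).re) (fun i => (u i).im)
  rw [h1] at h2
  exact h2

/-- The positive definite hermitian form. -/
@[instance_reducible]
def AbVar.core : InnerProductSpace.Core ℂ (ι → ℂ) where
  inner u w := star u ⬝ᵥ (A.H *ᵥ w)
  conj_inner_symm x y := by
    change star (star y ⬝ᵥ (A.H *ᵥ x)) = _
    rw [← Matrix.star_dotProduct_star, star_star, A.H_star, dotProduct_comm, A.H_symm]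
  re_inner_nonneg x := by
    change 0 ≤ (star x ⬝ᵥ (A.H *ᵥ x)).re
    rw [A.H_pos, Complex.ofReal_re]
    have key : ∀ v : ι → ℝ, 0 ≤ v ⬝ᵥ ((toR A.E * A.J) *ᵥ v) := by
      intro v
      by_cases h : v = 0
      · rw [h, zero_dotProduct]
      · exact (A.real_pos v h).le
    exact add_nonneg (key _) (key _)
  add_left x y z := by
    rw [star_add, add_dotProduct]
  smul_left x y r := by
    rw [star_smul, smul_dotProduct]
    rfl
  definite x hx := by
    rw [A.H_pos] at hx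
    have hx' : ((fun i => (x i).re) ⬝ᵥ ((toR A.E * A.J) *ᵥ fun i => (x i).re) +
      (fun i => (x i).im) ⬝ᵥ ((toR A.E * A.J) *ᵥ fun i => (x i).im) : ℝ) = 0 := by
      exact_mod_cast hx
    have key : ∀ v : ι → ℝ, 0 ≤ v ⬝ᵥ ((toR A.E * A.J) *ᵥ v) := by
      intro v
      by_cases h : v = 0
      · rw [h, zero_dotProduct]
      · exact (A.real_pos v h).le
    have h1 : (fun i => (x i).re) = 0 := by
      by_contra h
      have := A.real_pos _ h
      have := key (fun i => (x i).im)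
      linarith
    have h2 : (fun i => (x i).im) = 0 := by
      by_contra h
      have := A.real_pos _ h
      have := key (fun i => (x i).re)
      linarith
    funext i
    exact Complex.ext (congrFun h1 i) (congrFun h2 i)

/-- The hermitian adjoint of an element of the commutant is in the commutant. -/
theorem AbVar.exists_hadj {x : Matrix ι ι ℂ} (hx : x ∈ A.B) : ∃ x' ∈ A.B, ∀ u w : ι → ℂ,
    star (x' *ᵥ u) ⬝ᵥ (A.H *ᵥ w) = star u ⬝ᵥ (A.H *ᵥ (x *ᵥ w)) := by
  have h0 : A.JC * (-A.JC) = 1 := by rw [Matrix.mul_neg, A.JC_sq, neg_neg]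
  have h0' : (-A.JC) * A.JC = 1 := by rw [Matrix.neg_mul, A.JC_sq, neg_neg]
  have hy : A.JC * x * (-A.JC) ∈ A.B :=
    mul_mem (mul_mem A.JC_mem hx) (neg_mem A.JC_mem)
  refine ⟨cj (A.adj (A.JC * x * (-A.JC))), A.cj_mem (A.adj_mem hy), fun u w => ?_⟩
  have h1 : star (cj (A.adj (A.JC * x * (-A.JC))) *ᵥ u) = A.adj (A.JC * x * (-A.JC)) *ᵥ star u := by
    funext i
    simp only [Pi.star_apply, Matrix.mulVec, dotProduct, star_sum, star_mul', cj, Matrix.map_apply]
    refine Finset.sum_congr rfl fun j _ => ?_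
    rw [Complex.star_def, Complex.conj_conj]
  rw [h1, Matrix.mulVec_mulVec, ← Matrix.vecMul_transpose, ← Matrix.dotProduct_mulVec,
    Matrix.mulVec_mulVec]
  congr 2
  unfold AbVar.H
  rw [← Matrix.mul_assoc, A.adj_spec]
  simp only [Matrix.mul_assoc]
  rw [h0', Matrix.mul_one]

/-- Every subspace stable under the commutant has a stable complement. -/
theorem AbVar.exists_stable_compl (U : Submodule ℂ (ι → ℂ)) (hU : ∀ x ∈ A.B, ∀ u ∈ U, x *ᵥ u ∈ U) :
    ∃ U' : Submodule ℂ (ι → ℂ), (∀ x ∈ A.B, ∀ u ∈ U', x *ᵥ u ∈ U') ∧ IsCompl U U' := by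
  obtain ⟨U', hc, hU'⟩ := exists_compl A.core U
  refine ⟨U', fun x hx w hw => ?_, hc⟩
  rw [hU'] at hw ⊢
  intro u hu
  obtain ⟨x', hx', hadj⟩ := A.exists_hadj hx
  change star u ⬝ᵥ (A.H *ᵥ (x *ᵥ w)) = 0
  rw [← hadj]
  exact hw _ (hU x' hx' u hu)

end

end Pool.Agent.W537.DB
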