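import Pool.Agent.W537.DB.G

/-!
# Forms of degree two
-/

set_option linter.unusedSectionVars false

namespace Pool.Agent.W537.DB

open Matrix Pool.Agent.H204R3.SP Pool.Agent.H204R3.CM

noncomputable section

variable {ι : Type} [Fintype ι] [DecidableEq ι]

/-- The product of the bilinear forms with matrices `B l`. -/
def prodForm {m : ℕ} (σ : Equiv.Perm (Fin m × Fin 2)) (B : Fin m → Matrix ι ι ℂ) :
    Form ι (Fin m × Fin 2) :=
  (prodMap (fun l => bil2 (Matrix.toLinearMap₂' ℂ (B l)))).domDomCongr σ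

theorem prodForm_apply {m : ℕ} (σ : Equiv.Perm (Fin m × Fin 2)) (B : Fin m → Matrix ι ι ℂ)
    (v : Fin m × Fin 2 → ι → ℂ) :
    prodForm σ B v = ∏ l, v (σ (l, 0)) ⬝ᵥ (B l *ᵥ v (σ (l, 1))) := by
  unfold prodForm
  rw [MultilinearMap.domDomCongr_apply, prodMap_apply]
  refine Finset.prod_congr rfl fun l _ => ?_
  rw [bil2_apply, Matrix.toLinearMap₂'_apply']

/-- The bilinear form with matrix `M`. -/
def bF (M : Matrix ι ι ℂ) : Form ι (Fin 1 × Fin 2) := prodForm 1 (fun _ => M)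

theorem bF_apply (M : Matrix ι ι ℂ) (v : Fin 1 × Fin 2 → ι → ℂ) :
    bF M v = v (0, 0) ⬝ᵥ (M *ᵥ v (0, 1)) := by
  unfold bF
  rw [prodForm_apply, Fin.prod_univ_one]
  rfl

theorem killM_bF (x M : Matrix ι ι ℂ) (v : Fin 1 × Fin 2 → ι → ℂ) :
    killM (Matrix.toLin' x) (bF M) v = v (0, 0) ⬝ᵥ ((x.transpose * M + M * x) *ᵥ v (0, 1)) := by
  have h0 : ((0 : Fin 1), (0 : Fin 2)) ≠ (0, 1) := by simp
  rw [killM_apply, Fintype.sum_prod_type, Fin.sum_univ_one, Fin.sum_univ_two]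
  simp only [bF_apply]
  rw [Function.update_self, Function.update_of_ne h0.symm, Function.update_self,
    Function.update_of_ne h0, Matrix.toLin'_apply, Matrix.toLin'_apply, Matrix.add_mulVec,
    dotProduct_add]
  congr 1
  · rw [← Matrix.mulVec_mulVec, Matrix.dotProduct_mulVec _ x.transpose, Matrix.vecMul_transpose]
  · rw [Matrix.mulVec_mulVec]

theorem eq_zero_of_dot {M : Matrix ι ι ℂ} (h : ∀ u w : ι → ℂ, u ⬝ᵥ (M *ᵥ w) = 0) : M = 0 := by
  ext i j
  have h1 := h (Pi.single i 1) (Pi.single j 1)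
  rw [single_one_dotProduct, Matrix.mulVec_single_one] at h1
  exact h1

theorem kills_bF {x M : Matrix ι ι ℂ} : Kills (Matrix.toLin' x) (bF M) ↔
    x.transpose * M + M * x = 0 := by
  rw [kills_iff]
  constructor
  · intro h
    apply eq_zero_of_dot
    intro u w
    have h1 := killM_bF x M (fun k => if k.2 = 0 then u else w)
    rw [h] at h1
    simpa using h1.symm
  · intro h
    refine MultilinearMap.ext fun v => ?_
    rw [killM_bF, h, Matrix.zero_mulVec, dotProduct_zero]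
    rfl

variable (A : AbVar ι) {K : IntermediateField ℚ ℂ}

theorem ratCast_mem (K : IntermediateField ℚ ℂ) (q : ℚ) : (q : ℂ) ∈ K := by
  have := K.algebraMap_mem q
  simpa using this

theorem AbVar.isDRB_bF (hdiv : A.DivisorsDeRham) {B : Matrix ι ι ℚ} (hB : A.IsHodgeBilinear B) :
    A.IsDRB K 1 (bF (toC B)) := by
  constructor
  · intro I
    rw [bF_apply, single_one_dotProduct, Matrix.mulVec_single_one]
    exact ratCast_mem K _
  · intro I
    have h1 := hdiv B hB (I (0, 0)) (I (0, 1))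
    rw [bF_apply, pow_one]
    have h2 : (A.C⁻¹ *ᵥ Pi.single (I (0, 0)) 1) ⬝ᵥ (toC B *ᵥ (A.C⁻¹ *ᵥ Pi.single (I (0, 1)) 1)) =
        ((A.C⁻¹).transpose * toC B * A.C⁻¹) (I (0, 0)) (I (0, 1)) := by
      rw [← Matrix.vecMul_transpose, ← Matrix.dotProduct_mulVec, single_one_dotProduct,
        Matrix.mulVec_mulVec, Matrix.mulVec_mulVec, Matrix.mulVec_single_one, Matrix.mul_assoc]
      rfl
    rw [h2]
    exact h1

theorem AbVar.G_sp (hdiv : A.DivisorsDeRham) {x : Matrix ι ι ℂ} (hx : x ∈ A.G K) :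
    x.transpose * A.EC = -(A.EC * x) := by
  have h1 := kills_bF.1 (hx 1 _ (A.isDRB_bF hdiv (K := K) (B := A.E) A.E_J))
  exact eq_neg_of_add_eq_zero_left h1

theorem AbVar.G_adj (hdiv : A.DivisorsDeRham) {x : Matrix ι ι ℂ} (hx : x ∈ A.G K) :
    A.adj x = -x := by
  unfold AbVar.adj
  rw [Matrix.mul_assoc, A.G_sp hdiv hx, Matrix.mul_neg, ← Matrix.mul_assoc, A.EI_mul,
    Matrix.one_mul]

theorem AbVar.E_mul_isHodge {P : Matrix ι ι ℚ} (hP : A.IsEnd P) :
    A.IsHodgeBilinear (A.E * P) := by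
  unfold AbVar.IsHodgeBilinear
  change A.J.transpose * toR (A.E * P) * A.J = toR (A.E * P)
  rw [toR_mul, ← Matrix.mul_assoc, Matrix.mul_assoc (_ * _) (toR P), hP, ← Matrix.mul_assoc]
  have := A.E_J
  rw [this]

/-- The Lie algebra commutes with all endomorphisms. -/
theorem AbVar.G_le_B (hdiv : A.DivisorsDeRham) {x : Matrix ι ι ℂ} (hx : x ∈ A.G K) :
    x ∈ A.B := by
  rw [A.mem_B]
  intro P hP
  have h1 := kills_bF.1 (hx 1 _ (A.isDRB_bF hdiv (K := K) (A.E_mul_isHodge hP)))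
  rw [toC_mul, ← Matrix.mul_assoc] at h1
  change x.transpose * A.EC * toC P + A.EC * toC P * x = 0 at h1
  rw [A.G_sp hdiv hx, Matrix.neg_mul, neg_add_eq_zero, Matrix.mul_assoc, Matrix.mul_assoc] at h1
  have h2 := congrArg (fun M => A.EI * M) h1
  simp only [← Matrix.mul_assoc, A.EI_mul, Matrix.one_mul] at h2
  exact h2.symm

/-- The algebra generated by the Lie algebra is the commutant of the endomorphisms. -/
theorem AbVar.Alg_eq (hK : ∀ x ∈ K, IsAlgebraic ℚ x) (hdiv : A.DivisorsDeRham)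
    (hW : A.Wuestholz) : A.Alg K = A.B := by
  apply le_antisymm
  · unfold AbVar.Alg
    rw [Algebra.adjoin_le_iff]
    intro x hx
    exact A.G_le_B hdiv hx
  · intro x hx
    exact A.B_le hK hW hx

/-- The Lie algebra as a space of endomorphisms. -/
def AbVar.GE (K : IntermediateField ℚ ℂ) : Submodule ℂ (Module.End ℂ (ι → ℂ)) :=
  (A.G K).map (Matrix.toLin' : Matrix ι ι ℂ ≃ₗ[ℂ] _).toLinearMap

theorem AbVar.mem_GE {x : Matrix ι ι ℂ} (hx : x ∈ A.G K) : Matrix.toLin' x ∈ A.GE K :=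
  ⟨x, hx, rfl⟩

theorem toLin'_mul' (x y : Matrix ι ι ℂ) : (Matrix.toLin' (x * y) : Module.End ℂ (ι → ℂ)) =
    (Matrix.toLin' x : Module.End ℂ (ι → ℂ)) * Matrix.toLin' y := Matrix.toLin'_mul x y

theorem AbVar.GE_lie : IsLie (A.GE K) := by
  rintro _ ⟨x, hx, rfl⟩ _ ⟨y, hy, rfl⟩
  refine ⟨x * y - y * x, A.G_bracket K hx hy, ?_⟩
  change Matrix.toLin' (x * y - y * x) = _
  rw [map_sub, toLin'_mul', toLin'_mul']
  rfl

theorem AbVar.GE_ss (hK : ∀ x ∈ K, IsAlgebraic ℚ x) (hdiv : A.DivisorsDeRham)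
    (hW : A.Wuestholz) : Semisimple (A.GE K) := by
  intro U hU
  have hUB : ∀ x ∈ A.B, ∀ u ∈ U, x *ᵥ u ∈ U := by
    intro x hx
    rw [← A.Alg_eq hK hdiv hW] at hx
    unfold AbVar.Alg at hx
    induction hx using Algebra.adjoin_induction with
    | mem x hx =>
      intro u hu
      have := hU _ (A.mem_GE hx) u hu
      rwa [Matrix.toLin'_apply] at this
    | algebraMap r =>
      intro u hu
      rw [Algebra.algebraMap_eq_smul_one, Matrix.smul_mulVec, Matrix.one_mulVec]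
      exact U.smul_mem r hu
    | add x y _ _ hx hy =>
      intro u hu
      rw [Matrix.add_mulVec]
      exact U.add_mem (hx u hu) (hy u hu)
    | mul x y _ _ hx hy =>
      intro u hu
      rw [← Matrix.mulVec_mulVec]
      exact hx _ (hy u hu)
  obtain ⟨U', hU', hc⟩ := A.exists_stable_compl U hUB
  refine ⟨U', ?_, hc⟩
  rintro _ ⟨x, hx, rfl⟩ u hu
  exact hU' x (A.G_le_B hdiv hx) u hu

/-- An element of the Lie algebra which is orthogonal to the Lie algebra commutes with the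
commutant. -/
theorem AbVar.central_of_orth (hK : ∀ x ∈ K, IsAlgebraic ℚ x) (hdiv : A.DivisorsDeRham)
    (hW : A.Wuestholz) {x : Matrix ι ι ℂ} (hx : x ∈ A.G K)
    (h0 : ∀ y ∈ A.G K, (x * y).trace = 0) {y : Matrix ι ι ℂ} (hy : y ∈ A.B) : x * y = y * x := by
  have hR : Matrix.toLin' x ∈ Rad (A.GE K) := by
    refine ⟨A.mem_GE hx, ?_⟩
    rintro _ ⟨y, hy, rfl⟩
    change LinearMap.trace ℂ (ι → ℂ) (Matrix.toLin' x * Matrix.toLin' y) = 0
    rw [← toLin'_mul', Matrix.trace_toLin'_eq]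
    exact h0 y hy
  rw [← A.Alg_eq hK hdiv hW] at hy
  unfold AbVar.Alg at hy
  induction hy using Algebra.adjoin_induction with
  | mem y hy =>
    have h1 := rad_central A.GE_lie (A.GE_ss hK hdiv hW) hR (A.mem_GE hy)
    rw [← toLin'_mul', ← toLin'_mul'] at h1
    exact Matrix.toLin'.injective h1
  | algebraMap r => exact (Algebra.commutes r x).symm
  | add y z _ _ hy hz => rw [mul_add, add_mul, hy, hz]
  | mul y z _ _ hy hz => rw [← mul_assoc, hy, mul_assoc, hz, mul_assoc]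

end

end Pool.Agent.W537.DB
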