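import Mathlib
import Pool.Agent.H914R2.Core0

/-!
# The radical of the trace form of a Lie algebra acting semisimply is central
-/

set_option linter.unusedSectionVars false

namespace Pool.Agent.W537.DB

open Module

attribute [local instance 100] LieRing.ofAssociativeRing

variable {k V : Type*} [Field k] [CharZero k] [AddCommGroup V] [Module k V] [FiniteDimensional k V]

/-- Every subspace stable under `G` has a stable complement. -/
def Semisimple (G : Submodule k (End k V)) : Prop :=
  ∀ U : Submodule k V, (∀ x ∈ G, ∀ u ∈ U, x u ∈ U) →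
    ∃ U' : Submodule k V, (∀ x ∈ G, ∀ u ∈ U', x u ∈ U') ∧ IsCompl U U'

/-- Closed under the bracket. -/
def IsLie (G : Submodule k (End k V)) : Prop := ∀ x ∈ G, ∀ y ∈ G, x * y - y * x ∈ G

/-- A set of endomorphisms normalized by `G` which has a common kernel vector in every nonzero
`G`-stable subspace is zero. -/
theorem eq_zero_of_common {G : Submodule k (End k V)} (hG : Semisimple G) (S : Set (End k V))
    (hS : ∀ a ∈ S, ∀ x ∈ G, a * x - x * a ∈ S)
    (hk : ∀ U : Submodule k V, (∀ x ∈ G, ∀ u ∈ U, x u ∈ U) → U ≠ ⊥ →
      ∃ v ∈ U, v ≠ 0 ∧ ∀ a ∈ S, a v = 0) : ∀ a ∈ S, a = 0 := by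
  let U : Submodule k V :=
    { carrier := {v | ∀ a ∈ S, a v = 0}
      zero_mem' := fun a _ => map_zero a
      add_mem' := by
        intro v w hv hw a ha
        rw [map_add, hv a ha, hw a ha, add_zero]
      smul_mem' := by
        intro c v hv a ha
        rw [map_smul, hv a ha, smul_zero] }
  have hU : ∀ x ∈ G, ∀ u ∈ U, x u ∈ U := by
    intro x hx u hu a ha
    have h1 : a (x u) = (a * x - x * a) u + x (a u) := by
      simp
    rw [h1, hu _ (hS a ha x hx), hu a ha, map_zero, add_zero]
  obtain ⟨U', hU', hc⟩ := hG U hU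
  have hbot : U' = ⊥ := by
    by_contra hne
    obtain ⟨v, hv, hv0, hva⟩ := hk U' hU' hne
    exact hv0 ((Submodule.disjoint_def.1 hc.disjoint) v hva hv)
  have htop : U = ⊤ := by
    have := hc.sup_eq_top
    rwa [hbot, sup_bot_eq] at this
  intro a ha
  ext v
  have hv : v ∈ U := by
    rw [htop]
    trivial
  exact hv a ha

/-- The elements orthogonal to `G` for the trace form. -/
def Rad (G : Submodule k (End k V)) : Set (End k V) :=
  {x | x ∈ G ∧ ∀ y ∈ G, LinearMap.trace k V (x * y) = 0}

theorem rad_bracket {G : Submodule k (End k V)} (hG : IsLie G) {x y : End k V} (hx : x ∈ Rad G)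
    (hy : y ∈ G) : x * y - y * x ∈ Rad G := by
  refine ⟨hG x hx.1 y hy, fun z hz => ?_⟩
  have h1 := hx.2 _ (hG y hy z hz)
  rw [sub_mul, map_sub, sub_eq_zero]
  rw [mul_sub, map_sub, sub_eq_zero] at h1
  rw [mul_assoc, h1, ← mul_assoc, LinearMap.trace_mul_comm, ← mul_assoc]

/-- The Lie algebra `Rad G`. -/
def radLie {G : Submodule k (End k V)} (hG : IsLie G) : LieSubalgebra k (End k V) where
  carrier := Rad G
  zero_mem' := ⟨G.zero_mem, fun y _ => by rw [zero_mul, map_zero]⟩
  add_mem' := by
    intro a b ha hb
    exact ⟨G.add_mem ha.1 hb.1, fun y hy => by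
      rw [add_mul, map_add, ha.2 y hy, hb.2 y hy, add_zero]⟩
  smul_mem' := by
    intro c x hx
    exact ⟨G.smul_mem c hx.1, fun y hy => by
      rw [smul_mul_assoc, map_smul, hx.2 y hy, smul_zero]⟩
  lie_mem' := by
    intro x y hx hy
    exact rad_bracket hG hx hy.1

theorem radLie_nilpotent {G : Submodule k (End k V)} (hG : IsLie G) :
    LieModule.IsNilpotent (LieAlgebra.derivedSeries k (radLie hG) 1) V := by
  apply LieModule.isNilpotent_derivedSeries_of_traceForm_eq_zero
  ext x y
  rw [LieModule.traceForm_apply_apply]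
  exact x.2.2 y.1 y.2.1

/-- The radical of the trace form is abelian. -/
theorem rad_comm {G : Submodule k (End k V)} (hG : IsLie G) (hs : Semisimple G) {x y : End k V}
    (hx : x ∈ Rad G) (hy : y ∈ Rad G) : x * y = y * x := by
  -- the span of the brackets
  let S : Submodule k (End k V) := Submodule.span k {z | ∃ a ∈ Rad G, ∃ b ∈ Rad G, z = a * b - b * a}
  have hSz : ∀ a ∈ (S : Set (End k V)), a = 0 := by
    apply eq_zero_of_common hs
    · intro a ha z hz
      induction ha using Submodule.span_induction with
      | mem a ha =>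
        obtain ⟨b, hb, c, hc, rfl⟩ := ha
        have h1 : (b * c - c * b) * z - z * (b * c - c * b) =
            ((b * z - z * b) * c - c * (b * z - z * b)) +
              (b * (c * z - z * c) - (c * z - z * c) * b) := by
          noncomm_ring
        rw [h1]
        exact S.add_mem (Submodule.subset_span ⟨_, rad_bracket hG hb hz, c, hc, rfl⟩)
          (Submodule.subset_span ⟨b, hb, _, rad_bracket hG hc hz, rfl⟩)
      | zero => rw [zero_mul, mul_zero, sub_zero]; exact S.zero_mem
      | add a b _ _ ha hb =>
        have : (a + b) * z - z * (a + b) = (a * z - z * a) + (b * z - z * b) := by noncomm_ring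
        rw [this]
        exact S.add_mem ha hb
      | smul c a _ ha =>
        have : (c • a) * z - z * (c • a) = c • (a * z - z * a) := by
          rw [smul_mul_assoc, mul_smul_comm, smul_sub]
        rw [this]
        exact S.smul_mem c ha
    · intro U hU hne
      let L := LieAlgebra.derivedSeries k (radLie hG) 1
      let UL : LieSubmodule k L V :=
        { U with
          lie_mem := by
            intro x u hu
            exact hU _ x.1.2.1 u hu }
      have hn := radLie_nilpotent hG
      have hn1 : LieModule.IsNilpotent L (⊤ : LieSubmodule k L V) :=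
        (LieModule.isNilpotent_of_top_iff' (R := k) (L := L) (M := V)).2 hn
      have hn2 : LieModule.IsNilpotent L UL :=
        LieModule.isNilpotent_of_le k L V UL ⊤ le_top
      have hnt : Nontrivial UL := by
        obtain ⟨v, hv, hv0⟩ := Submodule.exists_mem_ne_zero_of_ne_bot hne
        exact ⟨⟨⟨v, hv⟩, 0, fun h => hv0 (congrArg Subtype.val h)⟩⟩
      have := LieModule.nontrivial_max_triv_of_isNilpotent k L UL
      obtain ⟨⟨v, hv⟩, hv0⟩ := exists_ne (0 : LieModule.maxTrivSubmodule k L UL)
      refine ⟨v.1, v.2, fun h => hv0 (Subtype.ext (Subtype.ext h)), ?_⟩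
      intro a ha
      induction ha using Submodule.span_induction with
      | mem a ha =>
        obtain ⟨b, hb, c, hc, rfl⟩ := ha
        have h2 : (⁅(⟨b, hb⟩ : radLie hG), (⟨c, hc⟩ : radLie hG)⁆ : radLie hG) ∈ L := by
          have h3 : (⁅(⟨b, hb⟩ : radLie hG), (⟨c, hc⟩ : radLie hG)⁆ : radLie hG) ∈
              (LieAlgebra.derivedSeries k (radLie hG) 1 : Submodule k (radLie hG)) := by
            rw [LieAlgebra.coe_derivedSeries_one_eq]
            exact Submodule.subset_span ⟨_, _, rfl⟩
          exact h3
        have h4 := (LieModule.mem_maxTrivSubmodule (R := k) (L := L) (M := UL) v).1 hv ⟨_, h2⟩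
        exact congrArg Subtype.val h4
      | zero => rfl
      | add a b _ _ ha hb => rw [LinearMap.add_apply, ha, hb, add_zero]
      | smul c a _ ha => rw [LinearMap.smul_apply, ha, smul_zero]
  exact sub_eq_zero.1 (hSz _ (Submodule.subset_span ⟨x, hx, y, hy, rfl⟩))

theorem bracket_nilpotent {G : Submodule k (End k V)} (hG : IsLie G) (hs : Semisimple G)
    {a y : End k V} (ha : a ∈ Rad G) (hy : y ∈ G) : IsNilpotent (a * y - y * a) := by
  have hz : a * y - y * a ∈ Rad G := rad_bracket hG ha hy
  apply Pool.Agent.H914.isNilpotent_of_trace_pow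
  intro r
  have hc : Commute a ((a * y - y * a) ^ r) := Commute.pow_right (rad_comm hG hs ha hz) r
  rw [pow_succ', sub_mul, map_sub, sub_eq_zero]
  rw [mul_assoc, mul_assoc, LinearMap.trace_mul_comm, mul_assoc, ← hc.eq, ← mul_assoc,
    mul_assoc]

/-- The radical of the trace form is central. -/
theorem rad_central {G : Submodule k (End k V)} (hG : IsLie G) (hs : Semisimple G)
    {x y : End k V} (hx : x ∈ Rad G) (hy : y ∈ G) : x * y = y * x := by
  let S : Submodule k (End k V) := Submodule.span k {z | ∃ a ∈ Rad G, ∃ b ∈ G, z = a * b - b * a}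
  have hSR : ∀ z ∈ S, z ∈ Rad G := by
    intro z hz
    induction hz using Submodule.span_induction with
    | mem z hz =>
      obtain ⟨a, ha, b, hb, rfl⟩ := hz
      exact rad_bracket hG ha hb
    | zero => exact (radLie hG).zero_mem
    | add a b _ _ ha hb => exact (radLie hG).add_mem ha hb
    | smul c a _ ha => exact (radLie hG).smul_mem c ha
  have hSn : ∀ z ∈ S, IsNilpotent z := by
    intro z hz
    induction hz using Submodule.span_induction with
    | mem z hz =>
      obtain ⟨a, ha, b, hb, rfl⟩ := hz
      exact bracket_nilpotent hG hs ha hb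
    | zero => exact IsNilpotent.zero
    | add a b ha' hb' ha hb =>
      exact Commute.isNilpotent_add (rad_comm hG hs (hSR a ha') (hSR b hb')) ha hb
    | smul c a _ ha => exact ha.smul c
  have hSz : ∀ a ∈ (S : Set (End k V)), a = 0 := by
    apply eq_zero_of_common hs
    · intro a ha z hz
      exact Submodule.subset_span ⟨a, hSR a ha, z, hz, rfl⟩
    · intro U hU hne
      let L : LieSubalgebra k (End k V) :=
        { S with
          lie_mem' := by
            intro a b ha hb
            have : (⁅a, b⁆ : End k V) = 0 := by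
              rw [LieRing.of_associative_ring_bracket, sub_eq_zero]
              exact rad_comm hG hs (hSR a ha) (hSR b hb)
            rw [this]
            exact S.zero_mem }
      let UL : LieSubmodule k L V :=
        { U with
          lie_mem := by
            intro x u hu
            exact hU _ (hSR _ x.2).1 u hu }
      have hn : LieModule.IsNilpotent L V := by
        rw [LieModule.isNilpotent_iff_forall' (R := k)]
        intro x
        obtain ⟨n, hn⟩ := hSn x.1 x.2
        exact ⟨n, by rw [← hn]; rfl⟩
      have hn1 : LieModule.IsNilpotent L (⊤ : LieSubmodule k L V) :=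
        (LieModule.isNilpotent_of_top_iff' (R := k) (L := L) (M := V)).2 hn
      have hn2 : LieModule.IsNilpotent L UL :=
        LieModule.isNilpotent_of_le k L V UL ⊤ le_top
      have hnt : Nontrivial UL := by
        obtain ⟨v, hv, hv0⟩ := Submodule.exists_mem_ne_zero_of_ne_bot hne
        exact ⟨⟨⟨v, hv⟩, 0, fun h => hv0 (congrArg Subtype.val h)⟩⟩
      have := LieModule.nontrivial_max_triv_of_isNilpotent k L UL
      obtain ⟨⟨v, hv⟩, hv0⟩ := exists_ne (0 : LieModule.maxTrivSubmodule k L UL)
      refine ⟨v.1, v.2, fun h => hv0 (Subtype.ext (Subtype.ext h)), ?_⟩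
      intro a ha
      have h4 := (LieModule.mem_maxTrivSubmodule (R := k) (L := L) (M := UL) v).1 hv ⟨a, ha⟩
      exact congrArg Subtype.val h4
  exact sub_eq_zero.1 (hSz _ (Submodule.subset_span ⟨x, hx, y, hy, rfl⟩))

end Pool.Agent.W537.DB
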