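import Pool.Agent.W537.DB.Calc
import Pool.Agent.W537.DB.Comm
import Pool.Agent.W537.DB.LieRad

/-!
# The Lie algebra that kills the de Rham-Betti classes
-/

set_option linter.unusedSectionVars false

namespace Pool.Agent.W537.DB

open Matrix Pool.Agent.H204R3.SP

noncomputable section

variable {ι : Type} [Fintype ι] [DecidableEq ι] (A : AbVar ι) (K : IntermediateField ℚ ℂ)

/-- The matrices that kill all de Rham-Betti classes with coefficients in `K`. -/
def AbVar.G : Submodule ℂ (Matrix ι ι ℂ) where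
  carrier := {x | ∀ m f, A.IsDRB K m f → Kills (Matrix.toLin' x) f}
  zero_mem' := by
    intro m f _
    rw [kills_iff, map_zero]
    have := killM_smul (κ := Fin m × Fin 2) 0 0 f
    rwa [zero_smul, zero_smul] at this
  add_mem' := by
    intro x y hx hy m f hf
    have h1 := hx m f hf
    have h2 := hy m f hf
    rw [kills_iff] at h1 h2 ⊢
    rw [map_add, killM_add, h1, h2, add_zero]
  smul_mem' := by
    intro c x hx m f hf
    have h1 := hx m f hf
    rw [kills_iff] at h1 ⊢
    rw [map_smul, killM_smul, h1, smul_zero]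

theorem AbVar.G_bracket {x y : Matrix ι ι ℂ} (hx : x ∈ A.G K) (hy : y ∈ A.G K) :
    x * y - y * x ∈ A.G K := by
  intro m f hf
  have h1 := kills_bracket (hx m f hf) (hy m f hf)
  have h2 : Matrix.toLin' (x * y - y * x) = Matrix.toLin' x * Matrix.toLin' y -
      Matrix.toLin' y * Matrix.toLin' x := by
    rw [map_sub, Matrix.toLin'_mul, Matrix.toLin'_mul]
    rfl
  rw [h2]
  exact h1

variable {K} (hK : ∀ x ∈ K, IsAlgebraic ℚ x)

include hK in
theorem AbVar.Y_mem (D : Derivation ℤ ℂ ℂ) : A.Y D ∈ A.G K := by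
  intro m f hf
  exact (A.isDeRham_iff m f (fun I => hK _ (hf.1 I))).1 hf.2 D

include hK in
/-- A form with coefficients in `K` killed by the Lie algebra is a de Rham-Betti class. -/
theorem AbVar.isDRB_of {m : ℕ} {f : Form ι (Fin m × Fin 2)} (hf : HasCoeff K f)
    (h : ∀ x ∈ A.G K, Kills (Matrix.toLin' x) f) : A.IsDRB K m f :=
  ⟨hf, (A.isDeRham_iff m f (fun I => hK _ (hf I))).2 fun D => h _ (A.Y_mem hK D)⟩

theorem form_single_zero {κ : Type} [Fintype κ] [DecidableEq κ] (f : Form ι κ)
    (h : ∀ I : κ → ι, f (fun l => Pi.single (I l) 1) = 0) : f = 0 := by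
  refine form_zero (M := 1) isUnit_one f fun I => ?_
  simp only [Matrix.one_mulVec]
  exact h I

include hK in
/-- The Lie algebra is stable under derivations. -/
theorem AbVar.G_der (D : Derivation ℤ ℂ ℂ) {x : Matrix ι ι ℂ} (hx : x ∈ A.G K) :
    x.map D ∈ A.G K := by
  intro m f hf
  rw [kills_iff]
  refine form_single_zero _ fun I => ?_
  rw [killM_apply]
  have h1 := hx m f hf (fun l => Pi.single (I l) 1)
  have h2 := congrArg D h1
  rw [map_sum, map_zero] at h2
  rw [← h2]
  refine Finset.sum_congr rfl fun k _ => ?_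
  rw [der_form D f (fun I => hK _ (hf.1 I))]
  rw [Finset.sum_eq_single k]
  · rw [Function.update_idem, Function.update_self]
    congr 2
    funext i
    simp [Matrix.toLin'_apply]
  · intro l _ hl
    apply f.map_coord_zero l
    rw [Function.update_self, Function.update_of_ne hl]
    funext i
    by_cases h : i = I l
    · subst h
      rw [Pi.single_eq_same, Derivation.map_one_eq_zero, Pi.zero_apply]
    · rw [Pi.single_eq_of_ne h, map_zero, Pi.zero_apply]
  · intro h
    exact absurd (Finset.mem_univ k) h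

/-- The algebra generated by the Lie algebra. -/
def AbVar.Alg (K : IntermediateField ℚ ℂ) : Subalgebra ℂ (Matrix ι ι ℂ) :=
  Algebra.adjoin ℂ (A.G K : Set (Matrix ι ι ℂ))

include hK in
theorem AbVar.Alg_der (D : Derivation ℤ ℂ ℂ) {x : Matrix ι ι ℂ} (hx : x ∈ A.Alg K) :
    x.map D ∈ A.Alg K := by
  unfold AbVar.Alg at hx ⊢
  induction hx using Algebra.adjoin_induction with
  | mem x hx => exact Algebra.subset_adjoin (A.G_der hK D hx)
  | algebraMap r =>
    have : (algebraMap ℂ (Matrix ι ι ℂ) r).map D = algebraMap ℂ (Matrix ι ι ℂ) (D r) := by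
      ext i j
      rw [Matrix.map_apply, Matrix.algebraMap_matrix_apply, Matrix.algebraMap_matrix_apply]
      split_ifs
      · rfl
      · exact map_zero D
    rw [this]
    exact Subalgebra.algebraMap_mem _ _
  | add x y _ _ hx hy =>
    have : (x + y).map D = x.map D + y.map D := by
      ext i j
      simp
    rw [this]
    exact add_mem hx hy
  | mul x y hx' hy' hx hy =>
    rw [der_mul]
    exact add_mem (mul_mem hx hy') (mul_mem hx' hy)

include hK in
theorem AbVar.X_mem (D : Derivation ℤ ℂ ℂ) : A.X D ∈ A.Alg K := by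
  have h1 : A.X D = A.Y D + (lam D / 2) • 1 := by
    unfold AbVar.Y
    abel
  rw [h1]
  exact add_mem (Algebra.subset_adjoin (A.Y_mem hK D))
    (Subalgebra.smul_mem _ (one_mem _) _)

theorem toC_mulVec (P : Matrix ι ι ℚ) (v : ι → ℚ) :
    (fun j => (((P *ᵥ v) j : ℚ) : ℂ)) = toC P *ᵥ (fun j => ((v j : ℚ) : ℂ)) := by
  funext j
  simp only [Matrix.mulVec, dotProduct, Matrix.map_apply]
  push_cast
  rfl

include hK in
/-- By the theorem of Wüstholz the algebra contains the commutant of the endomorphisms. -/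
theorem AbVar.B_le (hW : A.Wuestholz) {x : Matrix ι ι ℂ} (hx : x ∈ A.B) : x ∈ A.Alg K := by
  let N : Submodule ℂ (ι × ι → ℂ) :=
    { carrier := {w | ∃ a ∈ A.Alg K, ∀ p, w p = (A.C * a) p.1 p.2}
      zero_mem' := ⟨0, zero_mem _, fun p => by simp⟩
      add_mem' := by
        rintro w w' ⟨a, ha, h⟩ ⟨a', ha', h'⟩
        refine ⟨a + a', add_mem ha ha', fun p => ?_⟩
        rw [Pi.add_apply, h, h', Matrix.mul_add, Matrix.add_apply]
      smul_mem' := by
        rintro c w ⟨a, ha, h⟩
        refine ⟨c • a, Subalgebra.smul_mem _ ha _, fun p => ?_⟩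
        rw [Pi.smul_apply, h, Matrix.mul_smul, Matrix.smul_apply] }
  have hN : DStable N := by
    rintro D w ⟨a, ha, h⟩
    refine ⟨A.X D * a + a.map D, add_mem (mul_mem (A.X_mem hK D) ha) (A.Alg_der hK D ha),
      fun p => ?_⟩
    have h1 := congrFun (congrFun (der_mul D A.C a) p.1) p.2
    rw [Matrix.map_apply] at h1
    change D (w p) = _
    rw [h, h1, A.der_C, Matrix.mul_add, Matrix.mul_assoc]
  by_contra hxn
  have hw : (fun p : ι × ι => (A.C * x) p.1 p.2) ∉ N := by
    rintro ⟨a, ha, h⟩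
    apply hxn
    have h1 : A.C * x = A.C * a := by
      ext i j
      exact h (i, j)
    have h2 := congrArg (fun M => A.C⁻¹ * M) h1
    simp only [← Matrix.mul_assoc, A.inv_mul, Matrix.one_mul] at h2
    rw [h2]
    exact ha
  obtain ⟨b, hb, hbN, hbx⟩ := exists_alg_form hN hw
  apply hbx
  -- the relation between the periods
  have h1 : ∑ k, dotProduct (fun i => b (i, k)) (A.C *ᵥ (fun j => (((Pi.single k 1 : ι → ℚ) j : ℚ) : ℂ)))
      = 0 := by
    have h2 := hbN (fun p => (A.C * (1 : Matrix ι ι ℂ)) p.1 p.2) ⟨1, one_mem _, fun p => rfl⟩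
    rw [Fintype.sum_prod_type_right] at h2
    rw [← h2]
    refine Finset.sum_congr rfl fun k _ => ?_
    rw [dotProduct]
    refine Finset.sum_congr rfl fun i _ => ?_
    congr 1
    have h3 : (fun j => (((Pi.single k 1 : ι → ℚ) j : ℚ) : ℂ)) = Pi.single k 1 := by
      funext j
      by_cases h : j = k
      · subst h
        simp
      · simp [Pi.single_eq_of_ne h]
    rw [h3, Matrix.mulVec_single_one, Matrix.mul_one]
    rfl
  obtain ⟨P, hP1, hP2, hP3⟩ := hW ι (fun k => Pi.single k 1) (fun k i => b (i, k))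
    (fun k i => hb (i, k)) h1
  have hx' := A.mem_B.1 hx
  -- the columns of `x`
  have h4 : ∀ k, x *ᵥ Pi.single k 1 = ∑ l, toC (P k l) *ᵥ (x *ᵥ Pi.single l 1) := by
    intro k
    have h5 : (Pi.single k 1 : ι → ℂ) = ∑ l, toC (P k l) *ᵥ (Pi.single l 1 : ι → ℂ) := by
      have h6 := congrArg (fun v : ι → ℚ => fun j => ((v j : ℚ) : ℂ)) (hP2 k)
      have h7 : ∀ k : ι, (fun j => (((Pi.single k 1 : ι → ℚ) j : ℚ) : ℂ)) = Pi.single k 1 := by
        intro k
        funext j
        by_cases h : j = k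
        · subst h
          simp
        · simp [Pi.single_eq_of_ne h]
      simp only [h7] at h6
      rw [← h6]
      funext j
      rw [Finset.sum_apply, Finset.sum_apply]
      push_cast
      refine Finset.sum_congr rfl fun l _ => ?_
      have h8 := congrFun (toC_mulVec (P k l) (Pi.single l 1)) j
      rw [h8, h7]
    conv_lhs => rw [h5, Matrix.mulVec_sum]
    refine Finset.sum_congr rfl fun l _ => ?_
    rw [Matrix.mulVec_mulVec, Matrix.mulVec_mulVec, hx' _ (hP1 k l)]
  have h9 : ∑ p : ι × ι, b p * (A.C * x) p.1 p.2 =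
      ∑ k, dotProduct (fun i => b (i, k)) (A.C *ᵥ (x *ᵥ Pi.single k 1)) := by
    rw [Fintype.sum_prod_type_right]
    refine Finset.sum_congr rfl fun k _ => ?_
    rw [dotProduct]
    refine Finset.sum_congr rfl fun i _ => ?_
    rw [Matrix.mulVec_mulVec, Matrix.mulVec_single_one]
    rfl
  rw [h9]
  have h10 : ∀ k, dotProduct (fun i => b (i, k)) (A.C *ᵥ (x *ᵥ Pi.single k 1)) =
      ∑ l, ∑ j, (x *ᵥ Pi.single l 1) j *
        dotProduct (fun i => b (i, k)) ((A.C * toC (P k l)) *ᵥ Pi.single j 1) := by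
    intro k
    rw [h4 k, Matrix.mulVec_sum, dotProduct_sum]
    refine Finset.sum_congr rfl fun l _ => ?_
    rw [Matrix.mulVec_mulVec]
    conv_lhs => rw [pi_eq_sum_univ' (x *ᵥ Pi.single l 1), Matrix.mulVec_sum, dotProduct_sum]
    refine Finset.sum_congr rfl fun j _ => ?_
    rw [Matrix.mulVec_smul, dotProduct_smul, smul_eq_mul]
  rw [Finset.sum_congr rfl (fun k _ => h10 k), Finset.sum_comm]
  refine Finset.sum_eq_zero fun l _ => ?_
  rw [Finset.sum_comm]
  refine Finset.sum_eq_zero fun j _ => ?_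
  rw [← Finset.mul_sum, hP3 l j, mul_zero]

end

end Pool.Agent.W537.DB
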