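import Pool.Agent.W537.DB.Rat

/-!
# Hodge classes and the complex structure
-/

set_option linter.unusedSectionVars false

namespace Pool.Agent.W537.DB

open Matrix Pool.Agent.H204R3.SP Pool.Agent.H204R3.CM

noncomputable section

variable {ι : Type} [Fintype ι] [DecidableEq ι] (A : AbVar ι)
variable {κ : Type} [Fintype κ] [DecidableEq κ]

theorem AbVar.rot_eq (θ : ℝ) : A.rot θ = (Real.cos θ : ℂ) • (1 : Matrix ι ι ℂ) +
    (Real.sin θ : ℂ) • A.JC := rfl

/-- The eigenspace of the complex structure for the eigenvalue `e i`. -/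
def AbVar.Eig (e : ℤ) (v : ι → ℂ) : Prop := A.JC *ᵥ v = ((e : ℂ) * Complex.I) • v

theorem AbVar.rot_eig (θ : ℝ) {e : ℤ} (he : e = 1 ∨ e = -1) {v : ι → ℂ} (hv : A.Eig e v) :
    A.rot θ *ᵥ v = Complex.exp ((e : ℂ) * θ * Complex.I) • v := by
  rw [A.rot_eq, Matrix.add_mulVec, Matrix.smul_mulVec, Matrix.smul_mulVec, Matrix.one_mulVec, hv,
    smul_smul, ← add_smul]
  congr 1
  rcases he with rfl | rfl
  · rw [Int.cast_one, one_mul, one_mul, Complex.exp_mul_I, Complex.ofReal_cos, Complex.ofReal_sin]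
  · have h1 : (((-1 : ℤ) : ℂ) * (θ : ℂ)) = -(θ : ℂ) := by
      push_cast
      ring
    rw [h1, Complex.exp_mul_I, Complex.cos_neg, Complex.sin_neg]
    push_cast
    ring

/-- The components of a vector. -/
def AbVar.pp (e : ℤ) (v : ι → ℂ) : ι → ℂ :=
  (1 / 2 : ℂ) • (v - ((e : ℂ) * Complex.I) • (A.JC *ᵥ v))

theorem AbVar.pp_eig {e : ℤ} (he : e = 1 ∨ e = -1) (v : ι → ℂ) : A.Eig e (A.pp e v) := by
  unfold AbVar.Eig AbVar.pp
  have h2 : A.JC *ᵥ (A.JC *ᵥ v) = -v := by
    rw [Matrix.mulVec_mulVec, A.JC_sq, Matrix.neg_mulVec, Matrix.one_mulVec]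
  have h3 : ((e : ℂ) * Complex.I) * ((e : ℂ) * Complex.I) = -1 := by
    have := Complex.I_mul_I
    rcases he with rfl | rfl
    · push_cast
      linear_combination this
    · push_cast
      linear_combination this
  rw [Matrix.mulVec_smul, Matrix.mulVec_sub, Matrix.mulVec_smul, h2, smul_comm]
  congr 1
  rw [smul_sub, smul_smul, h3]
  simp only [smul_neg, neg_smul, one_smul]
  abel

theorem AbVar.pp_add (v : ι → ℂ) : A.pp 1 v + A.pp (-1) v = v := by
  unfold AbVar.pp
  rw [← smul_add]
  have : v - (((1 : ℤ) : ℂ) * Complex.I) • A.JC *ᵥ v + (v - (((-1 : ℤ) : ℂ) * Complex.I) • A.JC *ᵥ v)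
      = (2 : ℂ) • v := by
    push_cast
    rw [one_mul, neg_one_mul, neg_smul, two_smul]
    abel
  rw [this, smul_smul]
  norm_num

/-- A form which vanishes on eigenvectors is zero. -/
theorem AbVar.form_eig_zero (f : Form ι κ)
    (h : ∀ (e : κ → ℤ), (∀ l, e l = 1 ∨ e l = -1) → ∀ v : κ → ι → ℂ, (∀ l, A.Eig (e l) (v l)) →
      f v = 0) : f = 0 := by
  refine MultilinearMap.ext fun v => ?_
  have h1 : v = (fun l => A.pp 1 (v l)) + fun l => A.pp (-1) (v l) := by
    funext l
    exact (A.pp_add (v l)).symm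
  rw [h1, MultilinearMap.map_add_univ, _root_.zero_apply]
  refine Finset.sum_eq_zero fun s _ => ?_
  refine h (fun l => if l ∈ s then 1 else -1) (fun l => ?_) _ fun l => ?_
  · by_cases hl : l ∈ s
    · rw [if_pos hl]
      exact Or.inl rfl
    · rw [if_neg hl]
      exact Or.inr rfl
  · by_cases hl : l ∈ s
    · rw [if_pos hl, Finset.piecewise_eq_of_mem _ _ _ hl]
      exact A.pp_eig (Or.inl rfl) _
    · rw [if_neg hl, Finset.piecewise_eq_of_notMem _ _ _ hl]
      exact A.pp_eig (Or.inr rfl) _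

theorem AbVar.killM_eig (f : Form ι κ) (e : κ → ℤ) (v : κ → ι → ℂ)
    (hv : ∀ l, A.Eig (e l) (v l)) :
    killM (Matrix.toLin' A.JC) f v = ((∑ l, e l : ℤ) : ℂ) * Complex.I * f v := by
  rw [killM_apply]
  have h1 : ∀ k, f (Function.update v k (Matrix.toLin' A.JC (v k))) =
      (e k : ℂ) * Complex.I * f v := by
    intro k
    rw [Matrix.toLin'_apply, hv k, MultilinearMap.map_update_smul, Function.update_eq_self,
      smul_eq_mul]
  rw [Finset.sum_congr rfl (fun k _ => h1 k), ← Finset.sum_mul, ← Finset.sum_mul]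
  push_cast
  rfl

theorem AbVar.rot_form_eig (θ : ℝ) (f : Form ι κ) (e : κ → ℤ) (he : ∀ l, e l = 1 ∨ e l = -1)
    (v : κ → ι → ℂ) (hv : ∀ l, A.Eig (e l) (v l)) :
    f (fun l => A.rot θ *ᵥ v l) =
      Complex.exp (((∑ l, e l : ℤ) : ℂ) * θ * Complex.I) * f v := by
  have h1 : (fun l => A.rot θ *ᵥ v l) =
      fun l => Complex.exp ((e l : ℂ) * θ * Complex.I) • v l := by
    funext l
    exact A.rot_eig θ (he l) (hv l)
  rw [h1, MultilinearMap.map_smul_univ, smul_eq_mul, ← Complex.exp_sum]
  congr 2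
  push_cast
  rw [Finset.sum_mul, Finset.sum_mul]

/-- A form is invariant under the complex numbers of absolute value one if and only if it is killed
by the complex structure. -/
theorem AbVar.inv_iff (f : Form ι κ) :
    (∀ (θ : ℝ) (v : κ → ι → ℂ), f (fun l => A.rot θ *ᵥ v l) = f v) ↔
      Kills (Matrix.toLin' A.JC) f := by
  constructor
  · intro h
    rw [kills_iff]
    apply A.form_eig_zero
    intro e he v hv
    rw [A.killM_eig f e v hv]
    by_cases hs : (∑ l, e l) = 0
    · rw [hs, Int.cast_zero, zero_mul, zero_mul]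
    · have hs' : ((∑ l, e l : ℤ) : ℝ) ≠ 0 := Int.cast_ne_zero.2 hs
      have h1 := h (Real.pi / ((∑ l, e l : ℤ) : ℝ)) v
      rw [A.rot_form_eig _ f e he v hv] at h1
      have h2 : ((∑ l, e l : ℤ) : ℂ) * ((Real.pi / ((∑ l, e l : ℤ) : ℝ) : ℝ) : ℂ) * Complex.I =
          Real.pi * Complex.I := by
        have h3 : ((∑ l, e l : ℤ) : ℂ) ≠ 0 := Int.cast_ne_zero.2 hs
        push_cast at h3 ⊢
        field_simp
      rw [h2, Complex.exp_pi_mul_I] at h1
      have h3 : f v = 0 := by linear_combination (-1 / 2 : ℂ) * h1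
      rw [h3, mul_zero]
  · intro h θ v
    rw [kills_iff] at h
    let g : Form ι κ := f.compLinearMap (fun _ => Matrix.toLin' (A.rot θ)) - f
    have hg : g = 0 := by
      apply A.form_eig_zero
      intro e he v hv
      change f (fun l => Matrix.toLin' (A.rot θ) (v l)) - f v = 0
      simp only [Matrix.toLin'_apply]
      rw [A.rot_form_eig _ f e he v hv]
      have h1 := A.killM_eig f e v hv
      rw [h, _root_.zero_apply] at h1
      rcases mul_eq_zero.1 h1.symm with h2 | h2
      · have h3 : ((∑ l, e l : ℤ) : ℂ) = 0 := (mul_eq_zero.1 h2).resolve_right Complex.I_ne_zero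
        rw [h3, zero_mul, zero_mul, Complex.exp_zero, one_mul, sub_self]
      · rw [h2, mul_zero, sub_self]
    have h1 : g v = 0 := by
      rw [hg]
      rfl
    exact sub_eq_zero.1 h1

/-- The form with given coefficients. -/
def ofCoeff (u : (κ → ι) → ℂ) : Form ι κ :=
  ∑ I : κ → ι, u I • (MultilinearMap.mkPiAlgebra ℂ κ ℂ).compLinearMap
    (fun k => LinearMap.proj (R := ℂ) (φ := fun _ : ι => ℂ) (I k))

theorem ofCoeff_apply (u : (κ → ι) → ℂ) (v : κ → ι → ℂ) :
    ofCoeff u v = ∑ I : κ → ι, u I * ∏ k, v k (I k) := by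
  unfold ofCoeff
  rw [_root_.sum_apply]
  refine Finset.sum_congr rfl fun I _ => ?_
  rw [_root_.smul_apply, smul_eq_mul, MultilinearMap.compLinearMap_apply,
    MultilinearMap.mkPiAlgebra_apply]
  rfl

theorem ofCoeff_single (u : (κ → ι) → ℂ) (I : κ → ι) :
    ofCoeff u (fun l => Pi.single (I l) 1) = u I := by
  rw [ofCoeff_apply, Finset.sum_eq_single I]
  · simp
  · intro I' _ hne
    obtain ⟨l, hl⟩ := Function.ne_iff.1 hne
    rw [Finset.prod_eq_zero (Finset.mem_univ l), mul_zero]
    rw [Pi.single_eq_of_ne hl]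
  · intro h
    exact absurd (Finset.mem_univ I) h

/-- The coefficients of a form. -/
def coeff (f : Form ι κ) : (κ → ι) → ℂ := fun I => f (fun l => Pi.single (I l) 1)

theorem ofCoeff_coeff (f : Form ι κ) : ofCoeff (coeff f) = f := by
  refine MultilinearMap.ext fun v => ?_
  rw [ofCoeff_apply, form_expand f v]
  exact Finset.sum_congr rfl fun I _ => mul_comm _ _

theorem coeff_ofCoeff (u : (κ → ι) → ℂ) : coeff (ofCoeff u : Form ι κ) = u := by
  funext I
  exact ofCoeff_single u I

/-- Descent for forms: a form with coefficients in `K` which is a complex linear combination of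
forms of `S` with coefficients in `K` is a linear combination over `K`. -/
theorem form_descend (K : IntermediateField ℚ ℂ) (S : Set (Form ι κ)) (hS : ∀ g ∈ S, HasCoeff K g)
    {f : Form ι κ} (hf : HasCoeff K f) (h : f ∈ Submodule.span ℂ S) : f ∈ Submodule.span K S := by
  let cL : Form ι κ →ₗ[ℂ] ((κ → ι) → ℂ) :=
    { toFun := coeff
      map_add' := fun _ _ => rfl
      map_smul' := fun _ _ => rfl }
  let oL : ((κ → ι) → ℂ) →ₗ[K] Form ι κ :=
    { toFun := ofCoeff
      map_add' := by
        intro u v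
        refine MultilinearMap.ext fun w => ?_
        rw [_root_.add_apply, ofCoeff_apply, ofCoeff_apply, ofCoeff_apply,
          ← Finset.sum_add_distrib]
        exact Finset.sum_congr rfl fun I _ => add_mul _ _ _
      map_smul' := by
        intro c u
        refine MultilinearMap.ext fun w => ?_
        rw [RingHom.id_apply, _root_.smul_apply, ofCoeff_apply, ofCoeff_apply, Finset.smul_sum]
        refine Finset.sum_congr rfl fun I _ => ?_
        rw [Pi.smul_apply, Algebra.smul_def, Algebra.smul_def, mul_assoc] }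
  have h1 : coeff f ∈ Submodule.span ℂ (coeff '' S) := by
    have h2 : cL f ∈ (Submodule.span ℂ S).map cL := ⟨f, h, rfl⟩
    rw [Submodule.map_span] at h2
    exact h2
  have h2 : coeff f ∈ Submodule.span K (coeff '' S) := by
    apply descend_span K (coeff '' S) _ hf h1
    rintro _ ⟨g, hg, rfl⟩ I
    exact hS g hg I
  have h3 : oL (coeff f) ∈ (Submodule.span K (coeff '' S)).map oL := ⟨_, h2, rfl⟩
  rw [Submodule.map_span] at h3
  have h4 : oL (coeff f) = f := ofCoeff_coeff f
  rw [h4] at h3
  refine Submodule.span_mono ?_ h3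
  rintro _ ⟨_, ⟨g, hg, rfl⟩, rfl⟩
  have : oL (coeff g) = g := ofCoeff_coeff g
  rw [this]
  exact hg

/-- The equation on the coefficients of a form expressing that it is killed by `x`. -/
def killEq (x : Matrix ι ι ℂ) (I : κ → ι) : (κ → ι) → ℂ :=
  fun I' => ∑ k, ∑ b, if Function.update I k b = I' then x b (I k) else 0

theorem killM_coeff (x : Matrix ι ι ℂ) (f : Form ι κ) (I : κ → ι) :
    killM (Matrix.toLin' x) f (fun l => Pi.single (I l) 1) = ∑ I', killEq x I I' * coeff f I' := by
  rw [killM_apply]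
  unfold killEq
  simp only [Finset.sum_mul]
  rw [Finset.sum_comm]
  refine Finset.sum_congr rfl fun k _ => ?_
  rw [Finset.sum_comm]
  have h1 : Matrix.toLin' x (Pi.single (I k) 1) = ∑ b, x b (I k) • (Pi.single b 1 : ι → ℂ) := by
    rw [Matrix.toLin'_apply, Matrix.mulVec_single_one]
    exact pi_eq_sum_univ' _
  rw [h1, MultilinearMap.map_update_sum]
  refine Finset.sum_congr rfl fun b _ => ?_
  rw [MultilinearMap.map_update_smul, smul_eq_mul]
  rw [Finset.sum_eq_single (Function.update I k b)]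
  · rw [if_pos rfl]
    congr 1
    unfold coeff
    congr 1
    funext l
    by_cases h : l = k
    · subst h
      rw [Function.update_self, Function.update_self]
    · rw [Function.update_of_ne h, Function.update_of_ne h]
  · intro I' _ hne
    rw [if_neg (Ne.symm hne), zero_mul]
  · intro h
    exact absurd (Finset.mem_univ _) h

theorem killEq_rat (P : Matrix ι ι ℚ) (I I' : κ → ι) :
    killEq (toC P) I I' ∈ (⊥ : IntermediateField ℚ ℂ) := by
  unfold killEq
  refine sum_mem fun k _ => sum_mem fun b _ => ?_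
  split_ifs
  · exact ratCast_mem _ _
  · exact zero_mem _

end

end Pool.Agent.W537.DB
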