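import Pool.Agent.W537.DB.Cas2

/-!
# The Lie algebra of the Hodge group
-/

set_option linter.unusedSectionVars false

namespace Pool.Agent.W537.DB

open Matrix Pool.Agent.H204R3.SP Pool.Agent.H204R3.CM

noncomputable section

variable {ι : Type} [Fintype ι] [DecidableEq ι]

theorem exists_toC {x : Matrix ι ι ℂ} (hx : ∀ i j, x i j ∈ (⊥ : IntermediateField ℚ ℂ)) :
    ∃ Q : Matrix ι ι ℚ, x = toC Q := by
  have h1 : ∀ i j, ∃ q : ℚ, (q : ℂ) = x i j := by
    intro i j
    obtain ⟨q, hq⟩ := IntermediateField.mem_bot.1 (hx i j)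
    exact ⟨q, by simpa using hq⟩
  choose Q hQ using h1
  exact ⟨Matrix.of Q, by
    ext i j
    exact (hQ i j).symm⟩

/-- The centralizer of rational matrices is spanned by rational matrices. -/
theorem cent_span (T : Set (Matrix ι ι ℚ)) {x : Matrix ι ι ℂ}
    (hx : ∀ P ∈ T, toC P * x = x * toC P) :
    x ∈ Submodule.span ℂ {y | ∃ Q : Matrix ι ι ℚ, y = toC Q ∧ ∀ P ∈ T, P * Q = Q * P} := by
  let co : Matrix ι ι ℚ → ι → ι → ι × ι → ℂ := fun P i j p =>
    (if p.2 = j then (P i p.1 : ℂ) else 0) - (if p.1 = i then (P p.2 j : ℂ) else 0)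
  have hco : ∀ P i j (y : ι × ι → ℂ), ∑ p, co P i j p * y p =
      (toC P * Matrix.of (fun a b => y (a, b)) - Matrix.of (fun a b => y (a, b)) * toC P) i j := by
    intro P i j y
    rw [Matrix.sub_apply, Matrix.mul_apply, Matrix.mul_apply]
    simp only [co, sub_mul, Finset.sum_sub_distrib]
    rw [Fintype.sum_prod_type, Fintype.sum_prod_type]
    congr 1
    · refine Finset.sum_congr rfl fun k _ => ?_
      rw [Finset.sum_eq_single j]
      · rw [if_pos rfl]
        rfl
      · intro b _ hb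
        rw [if_neg hb, zero_mul]
      · intro h
        exact absurd (Finset.mem_univ _) h
    · rw [Finset.sum_eq_single i]
      · refine Finset.sum_congr rfl fun k _ => ?_
        rw [if_pos rfl, mul_comm]
        rfl
      · intro b _ hb
        refine Finset.sum_eq_zero fun k _ => ?_
        rw [if_neg hb, zero_mul]
      · intro h
        exact absurd (Finset.mem_univ _) h
  let S : Set (ι × ι → ℂ) := {b | ∃ P ∈ T, ∃ i j, b = co P i j}
  have hS : ∀ b ∈ S, ∀ i, b i ∈ (⊥ : IntermediateField ℚ ℂ) := by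
    rintro _ ⟨P, _, i, j, rfl⟩ p
    change (if p.2 = j then (P i p.1 : ℂ) else 0) - (if p.1 = i then (P p.2 j : ℂ) else 0) ∈ _
    refine sub_mem ?_ ?_
    · split_ifs
      · exact ratCast_mem _ _
      · exact zero_mem _
    · split_ifs
      · exact ratCast_mem _ _
      · exact zero_mem _
  have hw : ∀ b ∈ S, ∑ p, b p * (fun p : ι × ι => x p.1 p.2) p = 0 := by
    rintro _ ⟨P, hP, i, j, rfl⟩
    rw [hco]
    change (toC P * x - x * toC P) i j = 0
    rw [hx P hP, sub_self]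
    rfl
  have h1 := rational_span ⊥ S hS hw
  let L : (ι × ι → ℂ) →ₗ[ℂ] Matrix ι ι ℂ :=
    { toFun := fun w => Matrix.of fun i j => w (i, j)
      map_add' := fun _ _ => rfl
      map_smul' := fun _ _ => rfl }
  have h2 : L (fun p : ι × ι => x p.1 p.2) ∈ (Submodule.span ℂ
      {u : ι × ι → ℂ | (∀ i, u i ∈ (⊥ : IntermediateField ℚ ℂ)) ∧
        ∀ b ∈ S, ∑ i, b i * u i = 0}).map L := ⟨_, h1, rfl⟩
  rw [Submodule.map_span] at h2
  refine Submodule.span_mono ?_ h2
  rintro _ ⟨u, ⟨hu1, hu2⟩, rfl⟩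
  obtain ⟨Q, hQ⟩ := exists_toC (x := L u) fun i j => hu1 (i, j)
  refine ⟨Q, hQ, fun P hP => ?_⟩
  apply toC_injective
  rw [toC_mul, toC_mul, ← hQ]
  ext i j
  have h3 := hu2 _ ⟨P, hP, i, j, rfl⟩
  rw [hco] at h3
  exact sub_eq_zero.1 h3

variable (A : AbVar ι)

/-- The rational matrices that commute with all endomorphisms. -/
def AbVar.BQ : Set (Matrix ι ι ℚ) := {Q | ∀ P, A.IsEnd P → P * Q = Q * P}

theorem AbVar.BQ_mem {Q : Matrix ι ι ℚ} (hQ : Q ∈ A.BQ) : toC Q ∈ A.B := by
  rw [A.mem_B]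
  intro P hP
  rw [← toC_mul, ← toC_mul, hQ P hP]

theorem AbVar.BQ_of_mem {Q : Matrix ι ι ℚ} (hQ : toC Q ∈ A.B) : Q ∈ A.BQ := by
  intro P hP
  apply toC_injective
  rw [toC_mul, toC_mul]
  exact A.mem_B.1 hQ P hP

theorem AbVar.B_span {x : Matrix ι ι ℂ} (hx : x ∈ A.B) :
    x ∈ Submodule.span ℂ {y | ∃ Q ∈ A.BQ, y = toC Q} := by
  refine Submodule.span_mono ?_ (cent_span {P | A.IsEnd P} (A.mem_B.1 hx))
  rintro _ ⟨Q, rfl, hQ⟩
  exact ⟨Q, hQ, rfl⟩

/-- A rational matrix that commutes with the commutant is an endomorphism. -/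
theorem AbVar.isEnd_of_comm {Q : Matrix ι ι ℚ} (h : ∀ P ∈ A.BQ, P * Q = Q * P) : A.IsEnd Q := by
  have h1 : ∀ y ∈ Submodule.span ℂ {y | ∃ Q ∈ A.BQ, y = toC Q}, toC Q * y = y * toC Q := by
    intro y hy
    induction hy using Submodule.span_induction with
    | mem y hy =>
      obtain ⟨P, hP, rfl⟩ := hy
      rw [← toC_mul, ← toC_mul, h P hP]
    | zero => rw [mul_zero, zero_mul]
    | add y z _ _ hy hz => rw [mul_add, add_mul, hy, hz]
    | smul c y _ hy => rw [Matrix.mul_smul, Matrix.smul_mul, hy]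
  have h2 := h1 _ (A.B_span A.JC_mem)
  apply rC_injective
  rw [rC_mul, rC_mul, rC_toR]
  exact h2

/-- The elements of the center of the commutant are spanned by rational central endomorphisms. -/
theorem AbVar.center_span {x : Matrix ι ι ℂ} (hx : x ∈ A.B) (hc : ∀ y ∈ A.B, x * y = y * x) :
    x ∈ Submodule.span ℂ {y | ∃ Q : Matrix ι ι ℚ, y = toC Q ∧ A.IsEnd Q ∧
      ∀ P, A.IsEnd P → P * Q = Q * P} := by
  refine Submodule.span_mono ?_ (cent_span ({P | A.IsEnd P} ∪ A.BQ) (x := x) ?_)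
  · rintro _ ⟨Q, rfl, hQ⟩
    exact ⟨Q, rfl, A.isEnd_of_comm fun P hP => hQ P (Or.inr hP), fun P hP => hQ P (Or.inl hP)⟩
  · rintro P (hP | hP)
    · exact A.mem_B.1 hx P hP
    · exact (hc _ (A.BQ_mem hP)).symm

/-- There is no simple factor of type IV: the Rosati involution is trivial on the center of the
endomorphism algebra. -/
def AbVar.TypeIVFree : Prop :=
  ∀ z : Matrix ι ι ℚ, A.IsEnd z → (∀ P, A.IsEnd P → P * z = z * P) →
    z.transpose * A.E = A.E * z

theorem AbVar.central_adj (h4 : A.TypeIVFree) {x : Matrix ι ι ℂ} (hx : x ∈ A.B)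
    (hc : ∀ y ∈ A.B, x * y = y * x) : A.adj x = x := by
  have h1 : ∀ y ∈ Submodule.span ℂ {y | ∃ Q : Matrix ι ι ℚ, y = toC Q ∧ A.IsEnd Q ∧
      ∀ P, A.IsEnd P → P * Q = Q * P}, y.transpose * A.EC = A.EC * y := by
    intro y hy
    induction hy using Submodule.span_induction with
    | mem y hy =>
      obtain ⟨Q, rfl, hQ, hQc⟩ := hy
      have h2 := congrArg toC (h4 Q hQ hQc)
      rw [toC_mul, toC_mul] at h2
      exact h2
    | zero => rw [Matrix.transpose_zero, Matrix.zero_mul, Matrix.mul_zero]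
    | add y z _ _ hy hz => rw [Matrix.transpose_add, Matrix.add_mul, Matrix.mul_add, hy, hz]
    | smul c y _ hy => rw [Matrix.transpose_smul, Matrix.smul_mul, Matrix.mul_smul, hy]
  have h2 := h1 x (A.center_span hx hc)
  unfold AbVar.adj
  rw [Matrix.mul_assoc, h2, ← Matrix.mul_assoc, A.EI_mul, Matrix.one_mul]

/-! ### The Lie algebra of the Hodge group -/

/-- The matrices that kill all Hodge classes. -/
def AbVar.Hd : Submodule ℂ (Matrix ι ι ℂ) := AnnM (fun _ f => A.IsHodge f)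

theorem AbVar.JC_mem_Hd : A.JC ∈ A.Hd := by
  intro m f hf
  exact (A.inv_iff f).1 hf.2

theorem AbVar.isHodge_bF {B : Matrix ι ι ℚ} (hB : A.IsHodgeBilinear B) :
    A.IsHodge (bF (toC B)) := by
  constructor
  · intro I
    rw [bF_apply, single_one_dotProduct, Matrix.mulVec_single_one]
    exact ratCast_mem _ _
  · rw [A.inv_iff, kills_bF]
    have h1 := congrArg rC hB
    change rC (A.J.transpose * toR B * A.J) = rC (toR B) at h1
    rw [rC_mul, rC_mul, rC_toR] at h1
    have h2 := congrArg (fun M => M * A.JC) h1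
    change rC A.J.transpose * toC B * A.JC * A.JC = toC B * A.JC at h2
    rw [Matrix.mul_assoc _ A.JC, A.JC_sq, Matrix.mul_neg, Matrix.mul_one] at h2
    rw [← h2]
    exact add_neg_cancel _

theorem AbVar.Hd_sp {x : Matrix ι ι ℂ} (hx : x ∈ A.Hd) :
    x.transpose * A.EC = -(A.EC * x) :=
  eq_neg_of_add_eq_zero_left (kills_bF.1 (hx 1 _ (A.isHodge_bF (B := A.E) A.E_J)))

theorem AbVar.Hd_adj {x : Matrix ι ι ℂ} (hx : x ∈ A.Hd) : A.adj x = -x := by
  unfold AbVar.adj
  rw [Matrix.mul_assoc, A.Hd_sp hx, Matrix.mul_neg, ← Matrix.mul_assoc, A.EI_mul, Matrix.one_mul]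

theorem AbVar.Hd_le_B {x : Matrix ι ι ℂ} (hx : x ∈ A.Hd) : x ∈ A.B := by
  rw [A.mem_B]
  intro P hP
  have h1 := kills_bF.1 (hx 1 _ (A.isHodge_bF (A.E_mul_isHodge hP)))
  rw [toC_mul, ← Matrix.mul_assoc] at h1
  change x.transpose * A.EC * toC P + A.EC * toC P * x = 0 at h1
  rw [A.Hd_sp hx, Matrix.neg_mul, neg_add_eq_zero, Matrix.mul_assoc, Matrix.mul_assoc] at h1
  have h2 := congrArg (fun M => A.EI * M) h1
  simp only [← Matrix.mul_assoc, A.EI_mul, Matrix.one_mul] at h2
  exact h2.symm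

theorem kills_ofSpan {κ : Type} [Fintype κ] [DecidableEq κ] {S : Set (Matrix ι ι ℂ)}
    {f : Form ι κ} (h : ∀ x ∈ S, Kills (Matrix.toLin' x) f) {x : Matrix ι ι ℂ}
    (hx : x ∈ Submodule.span ℂ S) : Kills (Matrix.toLin' x) f := by
  rw [kills_iff]
  induction hx using Submodule.span_induction with
  | mem y hy => exact (kills_iff _ _).1 (h y hy)
  | zero =>
    rw [map_zero]
    have := killM_smul 0 0 f
    rwa [zero_smul, zero_smul] at this
  | add y z _ _ hy hz => rw [map_add, killM_add, hy, hz, add_zero]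
  | smul c y _ hy => rw [map_smul, killM_smul, hy, smul_zero]

theorem kills_span_form {κ : Type} [Fintype κ] [DecidableEq κ] (x : Module.End ℂ (ι → ℂ))
    {K : IntermediateField ℚ ℂ} {S : Set (Form ι κ)} (h : ∀ f ∈ S, Kills x f) {f : Form ι κ}
    (hf : f ∈ Submodule.span K S) : Kills x f := by
  rw [kills_iff]
  induction hf using Submodule.span_induction with
  | mem f hf => exact (kills_iff _ _).1 (h f hf)
  | zero =>
    have := killM_form_smul x 0 (0 : Form ι κ)
    rwa [zero_smul, zero_smul] at this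
  | add f g _ _ hf hg => rw [killM_form_add, hf, hg, add_zero]
  | smul c f _ hf =>
    have h1 : (c • f : Form ι κ) = (c : ℂ) • f := rfl
    rw [h1, killM_form_smul, hf, smul_zero]

/-- A form with coefficients in `K` killed by the Lie algebra of the Hodge group is a combination
of Hodge classes. -/
theorem AbVar.hodge_of_killed (K : IntermediateField ℚ ℂ) {m : ℕ} {f : Form ι (Fin m × Fin 2)}
    (hf : HasCoeff K f) (hk : ∀ x ∈ A.Hd, Kills (Matrix.toLin' x) f) :
    f ∈ Submodule.span K {g : Form ι (Fin m × Fin 2) | A.IsHodge g} := by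
  apply form_descend K _ (fun g hg I => ?_) hf
  · let S : Set ((Fin m × Fin 2 → ι) → ℂ) :=
      {b | ∃ P : Matrix ι ι ℚ, toC P ∈ A.Hd ∧ ∃ I, b = killEq (toC P) I}
    have hS : ∀ b ∈ S, ∀ i, b i ∈ (⊥ : IntermediateField ℚ ℂ) := by
      rintro _ ⟨P, _, I, rfl⟩ I'
      exact killEq_rat P I I'
    have hw : ∀ b ∈ S, ∑ i, b i * coeff f i = 0 := by
      rintro _ ⟨P, hP, I, rfl⟩
      rw [← killM_coeff, (kills_iff _ _).1 (hk _ hP)]
      rfl
    have h1 := rational_span ⊥ S hS hw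
    let L : ((Fin m × Fin 2 → ι) → ℂ) →ₗ[ℂ] Form ι (Fin m × Fin 2) :=
      { toFun := ofCoeff
        map_add' := by
          intro u v
          refine MultilinearMap.ext fun w => ?_
          rw [_root_.add_apply, ofCoeff_apply, ofCoeff_apply, ofCoeff_apply,
            ← Finset.sum_add_distrib]
          exact Finset.sum_congr rfl fun I _ => add_mul _ _ _
        map_smul' := by
          intro c u
          refine MultilinearMap.ext fun w => ?_
          rw [RingHom.id_apply, _root_.smul_apply, ofCoeff_apply, ofCoeff_apply, Finset.smul_sum]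
          refine Finset.sum_congr rfl fun I _ => ?_
          rw [Pi.smul_apply, smul_mul_assoc] }
    have h2 : L (coeff f) ∈ (Submodule.span ℂ
        {u : (Fin m × Fin 2 → ι) → ℂ | (∀ i, u i ∈ (⊥ : IntermediateField ℚ ℂ)) ∧
          ∀ b ∈ S, ∑ i, b i * u i = 0}).map L := ⟨_, h1, rfl⟩
    rw [Submodule.map_span] at h2
    have h3 : L (coeff f) = f := ofCoeff_coeff f
    rw [h3] at h2
    refine Submodule.span_mono ?_ h2
    rintro _ ⟨u, ⟨hu1, hu2⟩, rfl⟩
    have hc : ∀ I, L u (fun l => Pi.single (I l) 1) = u I := fun I => ofCoeff_single u I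
    refine ⟨fun I => ?_, ?_⟩
    · rw [hc]
      exact hu1 I
    · rw [A.inv_iff]
      refine kills_ofSpan (S := {y | y ∈ A.Hd ∧ ∀ i j, y i j ∈ (⊥ : IntermediateField ℚ ℂ)})
        ?_ (annM_span ⊥ _ (fun _ _ h => h.1) A.JC_mem_Hd)
      rintro y ⟨hy, hyQ⟩
      obtain ⟨P, rfl⟩ := exists_toC hyQ
      rw [kills_iff]
      refine form_single_zero _ fun I => ?_
      rw [killM_coeff]
      have h4 : coeff (L u) = u := coeff_ofCoeff u
      rw [h4]
      exact hu2 _ ⟨P, hy, I, rfl⟩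
  · obtain ⟨q, hq⟩ := IntermediateField.mem_bot.1 (hg.1 I)
    rw [← hq]
    exact K.algebraMap_mem q

/-- The theorem of Deligne: Hodge classes on the powers of an abelian variety are absolute, and
hence de Rham classes. -/
def AbVar.HodgeDeRham : Prop :=
  ∀ (m : ℕ) (f : Form ι (Fin m × Fin 2)), A.IsHodge f → A.IsDeRham m f

theorem AbVar.divisorsDeRham (hD : A.HodgeDeRham) : A.DivisorsDeRham := by
  intro B hB i j
  have h1 := hD 1 _ (A.isHodge_bF hB) (fun k => if k.2 = 0 then i else j)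
  rw [bF_apply, pow_one] at h1
  have h2 : (A.C⁻¹ *ᵥ Pi.single i 1) ⬝ᵥ (toC B *ᵥ (A.C⁻¹ *ᵥ Pi.single j 1)) =
      ((A.C⁻¹).transpose * toC B * A.C⁻¹) i j := by
    rw [← Matrix.vecMul_transpose, ← Matrix.dotProduct_mulVec, single_one_dotProduct,
      Matrix.mulVec_mulVec, Matrix.mulVec_mulVec, Matrix.mulVec_single_one, Matrix.mul_assoc]
    rfl
  rw [← h2]
  simpa using h1

end

end Pool.Agent.W537.DB
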